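import Mathlib

/-! Kernel estimates in the plane. -/

set_option autoImplicit false

open MeasureTheory Metric Set Filter Topology Complex
open scoped ENNReal

namespace Pool.Agent.R234.UC

theorem unit_mp_C (e : ℂ) (he : ‖e‖ = 1) :
    MeasurePreserving (fun z : ℂ => e * z) volume volume := by
  have he0 : e ≠ 0 := by
    intro h
    rw [h, norm_zero] at he
    exact zero_ne_one he
  let L : ℂ ≃ₗᵢ[ℝ] ℂ :=
    { toLinearEquiv := (LinearEquiv.smulOfNeZero ℂ ℂ e he0).restrictScalars ℝ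
      norm_map' := fun x => by
        show ‖e * x‖ = ‖x‖
        rw [norm_mul, he, one_mul] }
  exact L.measurePreserving

theorem lintegral_comp_rmul (r : ℝ) (hr : 0 < r) (f : ℂ → ℝ≥0∞) (hf : Measurable f) :
    ∫⁻ z, f (r • z) = (ENNReal.ofReal r ^ 2)⁻¹ * ∫⁻ y, f y := by
  have h := Measure.map_addHaar_smul (volume : Measure ℂ) hr.ne'
  have h1 : ∫⁻ z, f (r • z) = ∫⁻ y, f y ∂(Measure.map (r • ·) (volume : Measure ℂ)) := by
    rw [lintegral_map hf (by fun_prop)]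
  rw [h1, h, lintegral_smul_measure]
  rw [Complex.finrank_real_complex, smul_eq_mul, abs_of_pos (by positivity),
    ENNReal.ofReal_inv_of_pos (by positivity), ENNReal.ofReal_pow hr.le]

theorem lintegral_comp_cmul (l : ℂ) (hl : l ≠ 0) (f : ℂ → ℝ≥0∞) (hf : Measurable f) :
    ∫⁻ z, f (l * z) = (‖l‖ₑ ^ 2)⁻¹ * ∫⁻ y, f y := by
  have hl0 : 0 < ‖l‖ := norm_pos_iff.2 hl
  have he : ‖l / (‖l‖ : ℂ)‖ = 1 := by
    rw [norm_div, Complex.norm_real, norm_norm, div_self hl0.ne']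
  have h1 : ∀ z : ℂ, l * z = ‖l‖ • ((l / (‖l‖ : ℂ)) * z) := by
    intro z
    rw [Complex.real_smul]
    have : (‖l‖ : ℂ) ≠ 0 := by exact_mod_cast hl0.ne'
    field_simp
  have h2 : ∫⁻ z, f (l * z) = ∫⁻ z : ℂ, (fun y => f (‖l‖ • y)) ((l / (‖l‖ : ℂ)) * z) := by
    refine lintegral_congr fun z => ?_
    rw [h1 z]
  have h3 : Measurable fun y : ℂ => f (‖l‖ • y) := by fun_prop
  have h4 := (unit_mp_C _ he).lintegral_comp h3
  rw [h2]
  refine h4.trans ?_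
  rw [lintegral_comp_rmul _ hl0 f hf, ofReal_norm]

/-- inverse powers are locally integrable -/
theorem near (a : ℝ) (ha : a < 2) : ∫⁻ z : ℂ in ball 0 1, ‖z‖ₑ ^ (-a) < ∞ := by
  have h := integrableOn_ball_of_norm_le_rpow (μ := (volume : Measure ℂ)) (E := ℂ) (F := ℝ)
    (f := fun z => ‖z‖ ^ (-a)) (C := 1) (α := a) (r := 1)
    (by rw [Complex.finrank_real_complex]; norm_num)
    (by rw [Complex.finrank_real_complex]; exact_mod_cast ha)
    (by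
      refine Filter.Eventually.of_forall fun z => ?_
      rw [one_mul, Real.norm_of_nonneg (Real.rpow_nonneg (norm_nonneg _) _)])
    (by
      have : Measurable fun z : ℂ => ‖z‖ ^ (-a) := by fun_prop
      exact this.aestronglyMeasurable)
  have h2 := h.2
  rw [hasFiniteIntegral_iff_enorm] at h2
  refine lt_of_eq_of_lt ?_ h2
  have h0 : ∀ᵐ z : ℂ, z ≠ 0 := Measure.ae_ne (volume : Measure ℂ) 0
  refine lintegral_congr_ae (ae_restrict_of_ae ?_)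
  filter_upwards [h0] with z hz
  rw [← ofReal_norm, ← ofReal_norm, Real.norm_of_nonneg (Real.rpow_nonneg (norm_nonneg _) _),
    ENNReal.ofReal_rpow_of_pos (norm_pos_iff.2 hz)]

theorem far (a : ℝ) (ha : 2 < a) : ∫⁻ z : ℂ in {z | 1 / 2 ≤ ‖z‖}, ‖z‖ₑ ^ (-a) < ∞ := by
  have h := integrable_one_add_norm (μ := (volume : Measure ℂ)) (E := ℂ) (r := a)
    (by rw [Complex.finrank_real_complex]; exact_mod_cast ha)
  have h2 := h.2
  rw [hasFiniteIntegral_iff_enorm] at h2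
  have h3 : ∫⁻ z : ℂ in {z | 1 / 2 ≤ ‖z‖}, ‖z‖ₑ ^ (-a) ≤
      ∫⁻ z : ℂ, ENNReal.ofReal (3 ^ a) * ‖(1 + ‖z‖) ^ (-a)‖ₑ := by
    rw [← lintegral_indicator (measurableSet_le measurable_const measurable_norm)]
    refine lintegral_mono fun z => ?_
    by_cases hz : z ∈ {z : ℂ | 1 / 2 ≤ ‖z‖}
    · rw [indicator_of_mem hz]
      have hz' : 1 / 2 ≤ ‖z‖ := hz
      have hz0 : 0 < ‖z‖ := by linarith
      rw [← ofReal_norm, ← ofReal_norm, ENNReal.ofReal_rpow_of_pos hz0,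
        Real.norm_of_nonneg (by positivity), ← ENNReal.ofReal_mul (by positivity)]
      refine ENNReal.ofReal_le_ofReal ?_
      have h5 : (1 + ‖z‖) ≤ 3 * ‖z‖ := by linarith
      have h6 : (3 * ‖z‖) ^ (-a) ≤ (1 + ‖z‖) ^ (-a) :=
        Real.rpow_le_rpow_of_nonpos (by positivity) h5 (by linarith)
      rw [Real.mul_rpow (by norm_num) hz0.le] at h6
      calc ‖z‖ ^ (-a) = 3 ^ a * (3 ^ (-a) * ‖z‖ ^ (-a)) := by
            rw [← mul_assoc, ← Real.rpow_add (by norm_num), add_neg_cancel, Real.rpow_zero,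
              one_mul]
        _ ≤ _ := mul_le_mul_of_nonneg_left h6 (by positivity)
    · rw [indicator_of_notMem hz]
      exact zero_le
  refine lt_of_le_of_lt h3 ?_
  rw [lintegral_const_mul _ (by fun_prop)]
  exact ENNReal.mul_lt_top ENNReal.ofReal_lt_top h2

theorem kernel1 (a b : ℝ) (ha0 : 0 ≤ a) (hb0 : 0 ≤ b) (ha : a < 2) (hb : b < 2)
    (hab : 2 < a + b) :
    ∫⁻ z : ℂ, ‖z‖ₑ ^ (-a) * ‖z - 1‖ₑ ^ (-b) < ∞ := by
  set A : Set ℂ := ball 0 (1 / 2) with hA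
  set B : Set ℂ := ball 1 (1 / 2) with hB
  have hpow : ∀ (x : ℝ≥0∞) (t : ℝ), 0 ≤ t → ENNReal.ofReal (1 / 2) ≤ x →
      x ^ (-t) ≤ ENNReal.ofReal (1 / 2) ^ (-t) := by
    intro x t ht hx
    rw [ENNReal.rpow_neg, ENNReal.rpow_neg]
    exact ENNReal.inv_le_inv.2 (ENNReal.rpow_le_rpow hx ht)
  have hc : ∀ t : ℝ, ENNReal.ofReal (1 / 2) ^ (-t) < ∞ := by
    intro t
    refine lt_top_iff_ne_top.2 (ENNReal.rpow_ne_top_of_ne_zero ?_ ENNReal.ofReal_ne_top)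
    rw [Ne, ENNReal.ofReal_eq_zero]
    norm_num
  have hle : ∀ z : ℂ, ‖z‖ₑ ^ (-a) * ‖z - 1‖ₑ ^ (-b) ≤
      (ball (0 : ℂ) 1).indicator (fun z => ENNReal.ofReal (1 / 2) ^ (-b) * ‖z‖ₑ ^ (-a)) z +
      (ball (1 : ℂ) 1).indicator (fun z => ENNReal.ofReal (1 / 2) ^ (-a) * ‖z - 1‖ₑ ^ (-b)) z +
      {z : ℂ | 1 / 2 ≤ ‖z‖}.indicator (fun z => ENNReal.ofReal (3 ^ b) * ‖z‖ₑ ^ (-(a + b))) z := by
    intro z
    have hn : ∀ w : ℂ, ENNReal.ofReal (1 / 2) ≤ ‖w‖ₑ ↔ 1 / 2 ≤ ‖w‖ := by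
      intro w
      rw [← ofReal_norm, ENNReal.ofReal_le_ofReal_iff (norm_nonneg _)]
    by_cases h1 : ‖z‖ < 1 / 2
    · have h2 : z ∈ ball (0 : ℂ) 1 := by
        rw [mem_ball_zero_iff]
        linarith
      have h3 : 1 / 2 ≤ ‖z - 1‖ := by
        have : ‖(1 : ℂ)‖ ≤ ‖z‖ + ‖z - 1‖ := by
          calc ‖(1 : ℂ)‖ = ‖z - (z - 1)‖ := by congr 1; ring
            _ ≤ _ := norm_sub_le _ _
        rw [norm_one] at this
        linarith
      rw [indicator_of_mem h2, mul_comm]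
      refine le_trans ?_ (le_trans le_self_add le_self_add)
      exact mul_le_mul' (hpow _ _ hb0 ((hn _).2 h3)) le_rfl
    · by_cases h4 : ‖z - 1‖ < 1 / 2
      · have h2 : z ∈ ball (1 : ℂ) 1 := by
          rw [mem_ball, dist_eq_norm]
          linarith
        rw [indicator_of_mem h2]
        refine le_trans ?_ (le_trans le_add_self le_self_add)
        exact mul_le_mul' (hpow _ _ ha0 ((hn _).2 (not_lt.1 h1))) le_rfl
      · have h1' := not_lt.1 h1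
        have h4' := not_lt.1 h4
        have h2 : z ∈ {z : ℂ | 1 / 2 ≤ ‖z‖} := h1'
        rw [indicator_of_mem h2]
        refine le_trans ?_ le_add_self
        have h5 : ‖z‖ ≤ 3 * ‖z - 1‖ := by
          have : ‖z‖ ≤ ‖z - 1‖ + ‖(1 : ℂ)‖ := by
            calc ‖z‖ = ‖(z - 1) + 1‖ := by congr 1; ring
              _ ≤ _ := norm_add_le _ _
          rw [norm_one] at this
          linarith
        have hz0 : 0 < ‖z‖ := by linarith
        have hz1 : 0 < ‖z - 1‖ := by linarith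
        rw [← ofReal_norm, ← ofReal_norm, ENNReal.ofReal_rpow_of_pos hz0,
          ENNReal.ofReal_rpow_of_pos hz1, ENNReal.ofReal_rpow_of_pos hz0,
          ← ENNReal.ofReal_mul (by positivity), ← ENNReal.ofReal_mul (by positivity)]
        refine ENNReal.ofReal_le_ofReal ?_
        have h6 : (3 * ‖z - 1‖) ^ (-b) ≤ ‖z‖ ^ (-b) :=
          Real.rpow_le_rpow_of_nonpos hz0 h5 (by linarith)
        rw [Real.mul_rpow (by norm_num) hz1.le] at h6
        have h7 : ‖z - 1‖ ^ (-b) ≤ 3 ^ b * ‖z‖ ^ (-b) := by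
          calc ‖z - 1‖ ^ (-b) = 3 ^ b * (3 ^ (-b) * ‖z - 1‖ ^ (-b)) := by
                rw [← mul_assoc, ← Real.rpow_add (by norm_num), add_neg_cancel, Real.rpow_zero,
                  one_mul]
            _ ≤ _ := mul_le_mul_of_nonneg_left h6 (by positivity)
        calc ‖z‖ ^ (-a) * ‖z - 1‖ ^ (-b) ≤ ‖z‖ ^ (-a) * (3 ^ b * ‖z‖ ^ (-b)) :=
              mul_le_mul_of_nonneg_left h7 (by positivity)
          _ = 3 ^ b * (‖z‖ ^ (-a) * ‖z‖ ^ (-b)) := by ring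
          _ = _ := by rw [← Real.rpow_add hz0]; ring_nf
  refine lt_of_le_of_lt (lintegral_mono hle) ?_
  have m1 : Measurable ((ball (0 : ℂ) 1).indicator
      (fun z : ℂ => ENNReal.ofReal (1 / 2) ^ (-b) * ‖z‖ₑ ^ (-a))) :=
    Measurable.indicator (by fun_prop) measurableSet_ball
  have m2 : Measurable ((ball (1 : ℂ) 1).indicator
      (fun z : ℂ => ENNReal.ofReal (1 / 2) ^ (-a) * ‖z - 1‖ₑ ^ (-b))) :=
    Measurable.indicator (by fun_prop) measurableSet_ball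
  rw [lintegral_add_left (f := fun z => (ball (0 : ℂ) 1).indicator
      (fun z : ℂ => ENNReal.ofReal (1 / 2) ^ (-b) * ‖z‖ₑ ^ (-a)) z + (ball (1 : ℂ) 1).indicator
      (fun z : ℂ => ENNReal.ofReal (1 / 2) ^ (-a) * ‖z - 1‖ₑ ^ (-b)) z) (m1.add m2),
    lintegral_add_left m1, lintegral_indicator measurableSet_ball,
    lintegral_indicator measurableSet_ball,
    lintegral_indicator (measurableSet_le measurable_const measurable_norm)]
  rw [lintegral_const_mul _ (by fun_prop), lintegral_const_mul _ (by fun_prop),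
    lintegral_const_mul _ (by fun_prop)]
  refine ENNReal.add_lt_top.2 ⟨ENNReal.add_lt_top.2 ⟨ENNReal.mul_lt_top (hc _) (near a ha),
    ENNReal.mul_lt_top (hc _) ?_⟩, ENNReal.mul_lt_top ENNReal.ofReal_lt_top (far _ hab)⟩
  have h8 : ∫⁻ z : ℂ in ball 1 1, ‖z - 1‖ₑ ^ (-b) = ∫⁻ z : ℂ in ball 0 1, ‖z‖ₑ ^ (-b) := by
    rw [← lintegral_indicator measurableSet_ball, ← lintegral_indicator measurableSet_ball]
    rw [← lintegral_sub_right_eq_self ((ball (0 : ℂ) 1).indicator fun z => ‖z‖ₑ ^ (-b)) 1]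
    refine lintegral_congr fun z => ?_
    by_cases hz : z ∈ ball (1 : ℂ) 1
    · rw [indicator_of_mem hz, indicator_of_mem]
      rw [mem_ball, dist_eq_norm] at hz
      rwa [mem_ball_zero_iff]
    · rw [indicator_of_notMem hz, indicator_of_notMem]
      rw [mem_ball, dist_eq_norm] at hz
      rwa [mem_ball_zero_iff]
  rw [h8]
  exact near b hb

theorem kernel (a b : ℝ) (ha0 : 0 ≤ a) (hb0 : 0 ≤ b) (ha : a < 2) (hb : b < 2)
    (hab : 2 < a + b) :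
    ∃ C : ℝ≥0∞, C ≠ ∞ ∧ ∀ l : ℂ, l ≠ 0 →
      ∫⁻ z : ℂ, ‖z‖ₑ ^ (-a) * ‖z - l‖ₑ ^ (-b) ≤ C * ‖l‖ₑ ^ (2 - a - b) := by
  refine ⟨∫⁻ z : ℂ, ‖z‖ₑ ^ (-a) * ‖z - 1‖ₑ ^ (-b), (kernel1 a b ha0 hb0 ha hb hab).ne, ?_⟩
  intro l hl
  have hl0 : ‖l‖ₑ ≠ 0 := enorm_ne_zero.2 hl
  have hlt : ‖l‖ₑ ≠ ∞ := enorm_ne_top
  have h := lintegral_comp_cmul l hl (fun z => ‖z‖ₑ ^ (-a) * ‖z - l‖ₑ ^ (-b)) (by fun_prop)
  have h1 : ∫⁻ z : ℂ, ‖z‖ₑ ^ (-a) * ‖z - l‖ₑ ^ (-b) =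
      ‖l‖ₑ ^ 2 * ∫⁻ z : ℂ, ‖l * z‖ₑ ^ (-a) * ‖l * z - l‖ₑ ^ (-b) := by
    rw [h, ← mul_assoc, ENNReal.mul_inv_cancel (pow_ne_zero _ hl0) (ENNReal.pow_ne_top hlt),
      one_mul]
  rw [h1]
  have h2 : ∀ z : ℂ, ‖l * z‖ₑ ^ (-a) * ‖l * z - l‖ₑ ^ (-b) =
      ‖l‖ₑ ^ (-a - b) * (‖z‖ₑ ^ (-a) * ‖z - 1‖ₑ ^ (-b)) := by
    intro z
    have e1 : l * z - l = l * (z - 1) := by ring
    rw [e1, enorm_mul, enorm_mul, ENNReal.mul_rpow_of_ne_top hlt enorm_ne_top,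
      ENNReal.mul_rpow_of_ne_top hlt enorm_ne_top, show -a - b = -a + -b by ring,
      ENNReal.rpow_add _ _ hl0 hlt]
    ring
  simp_rw [h2]
  rw [lintegral_const_mul _ (by fun_prop), ← mul_assoc]
  have h3 : ‖l‖ₑ ^ 2 * ‖l‖ₑ ^ (-a - b) = ‖l‖ₑ ^ (2 - a - b) := by
    rw [← ENNReal.rpow_natCast, ← ENNReal.rpow_add _ _ hl0 hlt]
    congr 1
    push_cast
    ring
  rw [h3, mul_comm]

end Pool.Agent.R234.UC
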