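import Mathlib

/-! `L¹` mollification of integrable functions with values in a Banach space. -/

set_option autoImplicit false

open MeasureTheory Metric Set Filter Topology
open scoped ContDiff ENNReal

namespace Pool.Agent.R234.UC

variable {E F : Type*} [NormedAddCommGroup E] [InnerProductSpace ℝ E] [FiniteDimensional ℝ E]
  [MeasurableSpace E] [BorelSpace E] [NormedAddCommGroup F] [NormedSpace ℝ F] [CompleteSpace F]

/-- continuity of translations in `L¹`. -/
theorem transl_cont (g : E → F) (hg : Integrable g volume) (η : ℝ≥0∞) (hη : 0 < η) :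
    ∃ ε : ℝ, 0 < ε ∧ ∀ t : E, ‖t‖ < ε → ∫⁻ z, ‖g (z - t) - g z‖ₑ ≤ η := by
  have hg' : MemLp g 1 volume := memLp_one_iff_integrable.2 hg
  let G : E → C(E, E) := fun t => ⟨fun z => z - t, by fun_prop⟩
  have hG : Continuous G := ContinuousMap.continuous_of_continuous_uncurry _ (by
    show Continuous fun p : E × E => p.2 - p.1
    fun_prop)
  have hmp : ∀ t, MeasurePreserving (G t) volume volume := fun t =>
    measurePreserving_sub_right volume t
  haveI : Fact ((1 : ℝ≥0∞) ≤ 1) := ⟨le_refl _⟩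
  have hc : Continuous fun t => Lp.compMeasurePreserving (G t) (hmp t) (hg'.toLp g) :=
    Continuous.compMeasurePreservingLp continuous_const hG hmp (by norm_num)
  have h0 := hc.tendsto 0
  rw [EMetric.tendsto_nhds] at h0
  have h1 := h0 η hη
  rw [Metric.eventually_nhds_iff] at h1
  obtain ⟨ε, hε, h2⟩ := h1
  refine ⟨ε, hε, fun t ht => ?_⟩
  have h3 := h2 (y := t) (by simpa [dist_eq_norm] using ht)
  rw [Lp.edist_def] at h3
  have hcoe : ∀ s : E, (Lp.compMeasurePreserving (G s) (hmp s) (hg'.toLp g) : E → F) =ᵐ[volume]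
      fun z => g (z - s) := by
    intro s
    have e1 := Lp.coeFn_compMeasurePreserving (hg'.toLp g) (hmp s)
    have e2 : (fun z => (hg'.toLp g : E → F) (G s z)) =ᵐ[volume] fun z => g (G s z) :=
      (hmp s).quasiMeasurePreserving.ae_eq_comp hg'.coeFn_toLp
    exact e1.trans e2
  have h4 : eLpNorm (fun z => g (z - t) - g z) 1 volume =
      eLpNorm ((Lp.compMeasurePreserving (G t) (hmp t) (hg'.toLp g) : E → F) -
        (Lp.compMeasurePreserving (G 0) (hmp 0) (hg'.toLp g) : E → F)) 1 volume := by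
    apply eLpNorm_congr_ae
    filter_upwards [hcoe t, hcoe 0] with z h5 h6
    rw [Pi.sub_apply, h5, h6, sub_zero]
  rw [← eLpNorm_one_eq_lintegral_enorm, h4]
  exact h3.le

/-- the mollification error in `L¹` -/
theorem mollify_L1 (g : E → F) (hgm : StronglyMeasurable g) (hg : Integrable g volume) (ρ : E → ℝ)
    (hρc : Continuous ρ) (hρs : HasCompactSupport ρ) (hρ0 : ∀ t, 0 ≤ ρ t) (hρ1 : ∫ t, ρ t = 1)
    (ε : ℝ) (hρε : ∀ t, ρ t ≠ 0 → ‖t‖ < ε) (η : ℝ≥0∞)
    (h : ∀ t : E, ‖t‖ < ε → ∫⁻ z, ‖g (z - t) - g z‖ₑ ≤ η) :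
    ∫⁻ z, ‖(∫ t, ρ t • g (z - t)) - g z‖ₑ ≤ η := by
  have hρint : Integrable ρ := hρc.integrable_of_hasCompactSupport hρs
  have hloc : LocallyIntegrable g volume := hg.locallyIntegrable
  have hρm : Measurable fun t => ‖ρ t‖ₑ := hρc.measurable.enorm
  have hρ1' : ∫⁻ t, ‖ρ t‖ₑ = 1 := by
    rw [← ofReal_integral_norm_eq_lintegral_enorm hρint]
    have : ∫ x, ‖ρ x‖ = 1 := by
      rw [← hρ1]
      refine integral_congr_ae (Filter.Eventually.of_forall fun w => ?_)
      exact Real.norm_of_nonneg (hρ0 w)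
    rw [this, ENNReal.ofReal_one]
  have hpt : ∀ z, ‖(∫ t, ρ t • g (z - t)) - g z‖ₑ ≤
      ∫⁻ t, ‖ρ t‖ₑ * ‖g (z - t) - g z‖ₑ := by
    intro z
    have hi1 : Integrable fun t => ρ t • g (z - t) :=
      hρs.convolutionExists_left (ContinuousLinearMap.lsmul ℝ ℝ) hρc hloc z
    have hi2 : Integrable fun t => ρ t • g z := hρint.smul_const _
    have e1 : (∫ t, ρ t • g (z - t)) - g z = ∫ t, ρ t • (g (z - t) - g z) := by
      have : ∫ t, ρ t • g z = g z := by rw [integral_smul_const, hρ1, one_smul]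
      calc (∫ t, ρ t • g (z - t)) - g z = (∫ t, ρ t • g (z - t)) - ∫ t, ρ t • g z := by rw [this]
        _ = ∫ t, (ρ t • g (z - t) - ρ t • g z) := (integral_sub hi1 hi2).symm
        _ = _ := by simp only [smul_sub]
    rw [e1]
    refine (enorm_integral_le_lintegral_enorm _).trans (le_of_eq ?_)
    refine lintegral_congr fun t => ?_
    rw [enorm_smul]
  have hmm : Measurable fun q : E × E => ‖ρ q.2‖ₑ * ‖g (q.1 - q.2) - g q.1‖ₑ :=
    (hρm.comp measurable_snd).mul (((hgm.comp_measurable (measurable_fst.sub measurable_snd)).sub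
      (hgm.comp_measurable measurable_fst)).enorm)
  calc ∫⁻ z, ‖(∫ t, ρ t • g (z - t)) - g z‖ₑ
      ≤ ∫⁻ z, ∫⁻ t, ‖ρ t‖ₑ * ‖g (z - t) - g z‖ₑ := lintegral_mono hpt
    _ = ∫⁻ t, ∫⁻ z, ‖ρ t‖ₑ * ‖g (z - t) - g z‖ₑ :=
        lintegral_lintegral_swap hmm.aemeasurable
    _ ≤ ∫⁻ t, ‖ρ t‖ₑ * η := by
        refine lintegral_mono fun t => ?_
        simp only
        have hmt : Measurable fun z => ‖g (z - t) - g z‖ₑ :=
          ((hgm.comp_measurable (measurable_id.sub_const t)).sub hgm).enorm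
        rw [lintegral_const_mul _ hmt]
        by_cases ht : ρ t = 0
        · rw [ht]; simp
        · gcongr
          exact h t (hρε t ht)
    _ = η := by rw [lintegral_mul_const _ hρm, hρ1', one_mul]

end Pool.Agent.R234.UC
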