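import Mathlib
import Pool.Agent.R234.UC.K

/-! The one dimensional Carleman type estimate. -/

set_option autoImplicit false

open MeasureTheory Metric Set Filter Topology Complex
open scoped ENNReal

namespace Pool.Agent.R234.UC

theorem ae_ne_zero : ∀ᵐ z : ℂ, z ≠ 0 := Measure.ae_ne (volume : Measure ℂ) 0

theorem hoelderK (q : ℝ) (hq : 2 < q) :
    ∃ C : ℝ≥0∞, C ≠ ∞ ∧ ∀ (h : ℂ → ℝ≥0∞), Measurable h → ∀ S : Set ℂ, MeasurableSet S →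
      ∀ l : ℂ, l ≠ 0 →
      ∫⁻ z in S, h z * ‖z‖ₑ ^ (-(1 / 2) : ℝ) * ‖z - l‖ₑ⁻¹ ≤
        C * (∫⁻ z in S, h z ^ q * ‖z‖ₑ ^ (q - 2)) ^ (1 / q) * ‖l‖ₑ ^ (-(1 / 2) : ℝ) := by
  have hq0 : 0 < q := by linarith
  have hq1 : 0 < q - 1 := by linarith
  set p : ℝ := q / (q - 1) with hp
  have hp0 : 0 < p := by positivity
  set a : ℝ := (3 * q - 4) / (2 * (q - 1)) with ha
  have hpq : q.HolderConjugate p := by
    rw [hp]
    exact Real.HolderConjugate.conjExponent (by linarith)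
  have ha0 : 0 ≤ a := by
    rw [ha]
    exact div_nonneg (by linarith) (by linarith)
  have ha2 : a < 2 := by
    rw [ha, div_lt_iff₀ (by linarith)]
    linarith
  have hp2 : p < 2 := by
    rw [hp, div_lt_iff₀ hq1]
    linarith
  have hap : 2 < a + p := by
    rw [ha, hp]
    have : (3 * q - 4) / (2 * (q - 1)) + q / (q - 1) = (5 * q - 4) / (2 * (q - 1)) := by
      field_simp
      ring
    rw [this, lt_div_iff₀ (by linarith)]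
    linarith
  obtain ⟨C, hC, hk⟩ := kernel a p ha0 hp0.le ha2 hp2 hap
  refine ⟨C ^ (1 / p), ENNReal.rpow_ne_top_of_nonneg (by positivity) hC, ?_⟩
  intro h hh S hS l hl
  have h1 : ∫⁻ z in S, h z * ‖z‖ₑ ^ (-(1 / 2) : ℝ) * ‖z - l‖ₑ⁻¹ =
      ∫⁻ z in S, ((fun z => h z * ‖z‖ₑ ^ ((q - 2) / q)) *
        (fun z => ‖z‖ₑ ^ (-(a / p)) * ‖z - l‖ₑ ^ (-1 : ℝ))) z := by
    refine lintegral_congr_ae (ae_restrict_of_ae ?_)
    filter_upwards [ae_ne_zero] with z hz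
    have hz0 : ‖z‖ₑ ≠ 0 := enorm_ne_zero.2 hz
    rw [Pi.mul_apply]
    have e1 : ‖z‖ₑ ^ (-(1 / 2) : ℝ) = ‖z‖ₑ ^ ((q - 2) / q) * ‖z‖ₑ ^ (-(a / p)) := by
      rw [← ENNReal.rpow_add _ _ hz0 enorm_ne_top]
      congr 1
      rw [ha, hp]
      field_simp
      ring
    rw [e1, ENNReal.rpow_neg_one]
    ring
  rw [h1]
  refine (ENNReal.lintegral_mul_le_Lp_mul_Lq (volume.restrict S) hpq ?_ ?_).trans ?_
  · exact (hh.mul (by fun_prop)).aemeasurable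
  · fun_prop
  have h2 : ∫⁻ z in S, (h z * ‖z‖ₑ ^ ((q - 2) / q)) ^ q =
      ∫⁻ z in S, h z ^ q * ‖z‖ₑ ^ (q - 2) := by
    refine lintegral_congr fun z => ?_
    rw [ENNReal.mul_rpow_of_nonneg _ _ hq0.le, ← ENNReal.rpow_mul]
    congr 2
    field_simp
  have h3 : ∫⁻ z in S, (‖z‖ₑ ^ (-(a / p)) * ‖z - l‖ₑ ^ (-1 : ℝ)) ^ p ≤
      C * ‖l‖ₑ ^ (2 - a - p) := by
    refine (lintegral_mono' Measure.restrict_le_self le_rfl).trans (le_trans (le_of_eq ?_) (hk l hl))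
    refine lintegral_congr fun z => ?_
    rw [ENNReal.mul_rpow_of_nonneg _ _ hp0.le, ← ENNReal.rpow_mul, ← ENNReal.rpow_mul]
    congr 2
    · field_simp
    · ring
  calc (∫⁻ z in S, (h z * ‖z‖ₑ ^ ((q - 2) / q)) ^ q) ^ (1 / q) *
        (∫⁻ z in S, (‖z‖ₑ ^ (-(a / p)) * ‖z - l‖ₑ ^ (-1 : ℝ)) ^ p) ^ (1 / p)
      ≤ (∫⁻ z in S, h z ^ q * ‖z‖ₑ ^ (q - 2)) ^ (1 / q) *
        (C * ‖l‖ₑ ^ (2 - a - p)) ^ (1 / p) := by
        rw [h2]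
        exact mul_le_mul' le_rfl (ENNReal.rpow_le_rpow h3 (by positivity))
    _ = _ := by
        rw [ENNReal.mul_rpow_of_nonneg _ _ (by positivity), ← ENNReal.rpow_mul]
        have e2 : (2 - a - p) * (1 / p) = (-(1 / 2) : ℝ) := by
          rw [ha, hp]
          field_simp
          ring
        rw [e2]
        ring

theorem half_absorb (J B : ℝ≥0∞) (c : ℝ≥0∞) (hc : c ≤ 1 / 2) (hJ : J ≠ ∞)
    (h : J ≤ c * (J + B)) : J ≤ B := by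
  rcases eq_or_ne B ∞ with rfl | hB
  · exact le_top
  have h1 : J ≤ (1 / 2) * (J + B) := h.trans (mul_le_mul' hc le_rfl)
  have h2 : 2 * J ≤ J + B := by
    calc 2 * J ≤ 2 * ((1 / 2) * (J + B)) := mul_le_mul' le_rfl h1
      _ = J + B := by
        rw [← mul_assoc, one_div, ENNReal.mul_inv_cancel (by norm_num) (by norm_num), one_mul]
  rw [two_mul] at h2
  exact (ENNReal.add_le_add_iff_left hJ).1 h2

theorem core (q : ℝ) (hq : 2 < q) :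
    ∃ ε : ℝ≥0∞, 0 < ε ∧ ∃ C : ℝ≥0∞, C ≠ ∞ ∧ ∀ (a e h P Q : ℂ → ℝ≥0∞), Measurable a →
      Measurable e → Measurable h → Measurable P → Measurable Q → (∀ z, e z ≤ h z * a z) →
      ∀ S : Set ℂ, MeasurableSet S → (∀ᵐ z, z ∉ S → P z * e z = 0) →
      ∫⁻ z in S, h z ^ q * ‖z‖ₑ ^ (q - 2) ≤ ε →
      (∀ᵐ z, P z * a z ≤ ∫⁻ l, ‖z - l‖ₑ⁻¹ * (P l * e l + Q l * a l)) →
      ∫⁻ z, P z * e z * ‖z‖ₑ ^ (-(1 / 2) : ℝ) ≠ ∞ →
      ∫⁻ z, P z * a z * ‖z‖ₑ ^ (-(3 / 2) : ℝ) ≤ C * ∫⁻ z, Q z * a z * ‖z‖ₑ ^ (-(1 / 2) : ℝ) := by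
  obtain ⟨C₁, hC₁, hK⟩ := hoelderK q hq
  obtain ⟨C₂, hC₂, hk⟩ := kernel (3 / 2) 1 (by norm_num) (by norm_num) (by norm_num)
    (by norm_num) (by norm_num)
  have hq0 : 0 < q := by linarith
  -- choice of `ε`
  obtain ⟨ε, hε0, hε⟩ : ∃ ε : ℝ≥0∞, 0 < ε ∧ C₁ * ε ^ (1 / q) ≤ 1 / 2 := by
    refine ⟨((1 / 2) / (C₁ + 1)) ^ q, ?_, ?_⟩
    · refine ENNReal.rpow_pos_of_nonneg ?_ hq0.le
      refine ENNReal.div_pos (by norm_num) ?_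
      exact ENNReal.add_ne_top.2 ⟨hC₁, ENNReal.one_ne_top⟩
    · rw [← ENNReal.rpow_mul, mul_one_div_cancel hq0.ne', ENNReal.rpow_one]
      have hne : C₁ + 1 ≠ 0 := by simp
      have hnt : C₁ + 1 ≠ ∞ := ENNReal.add_ne_top.2 ⟨hC₁, ENNReal.one_ne_top⟩
      calc C₁ * ((1 / 2) / (C₁ + 1)) ≤ (C₁ + 1) * ((1 / 2) / (C₁ + 1)) :=
            mul_le_mul' le_self_add le_rfl
        _ = 1 / 2 := ENNReal.mul_div_cancel hne hnt
  refine ⟨ε, hε0, C₂ * 2, ENNReal.mul_ne_top hC₂ (by norm_num), ?_⟩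
  intro a e h P Q ha he hh hP hQ heh S hS hPe hH hin hJ
  set J : ℝ≥0∞ := ∫⁻ z, P z * e z * ‖z‖ₑ ^ (-(1 / 2) : ℝ) with hJdef
  set B : ℝ≥0∞ := ∫⁻ z, Q z * a z * ‖z‖ₑ ^ (-(1 / 2) : ℝ) with hBdef
  set W : ℂ → ℝ≥0∞ := fun l => P l * e l + Q l * a l with hW
  have hWm : Measurable W := (hP.mul he).add (hQ.mul ha)
  have hJB : J + B = ∫⁻ l, W l * ‖l‖ₑ ^ (-(1 / 2) : ℝ) := by
    rw [hJdef, hBdef, ← lintegral_add_left (by fun_prop)]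
    refine lintegral_congr fun z => ?_
    rw [hW]
    ring
  -- first estimate
  have h1 : J ≤ C₁ * (∫⁻ z in S, h z ^ q * ‖z‖ₑ ^ (q - 2)) ^ (1 / q) * (J + B) := by
    have e1 : J = ∫⁻ z in S, P z * e z * ‖z‖ₑ ^ (-(1 / 2) : ℝ) := by
      rw [hJdef, ← lintegral_indicator hS]
      refine lintegral_congr_ae ?_
      filter_upwards [hPe] with z hz
      by_cases hzS : z ∈ S
      · rw [indicator_of_mem hzS]
      · rw [indicator_of_notMem hzS, hz hzS, zero_mul]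
    have e2 : J ≤ ∫⁻ z in S, ∫⁻ l, W l * (h z * ‖z‖ₑ ^ (-(1 / 2) : ℝ) * ‖z - l‖ₑ⁻¹) := by
      rw [e1]
      refine lintegral_mono_ae (ae_restrict_of_ae ?_)
      filter_upwards [hin] with z hz
      calc P z * e z * ‖z‖ₑ ^ (-(1 / 2) : ℝ)
          ≤ P z * (h z * a z) * ‖z‖ₑ ^ (-(1 / 2) : ℝ) :=
            mul_le_mul' (mul_le_mul' le_rfl (heh z)) le_rfl
        _ = (h z * ‖z‖ₑ ^ (-(1 / 2) : ℝ)) * (P z * a z) := by ring
        _ ≤ (h z * ‖z‖ₑ ^ (-(1 / 2) : ℝ)) * ∫⁻ l, ‖z - l‖ₑ⁻¹ * W l := mul_le_mul' le_rfl hz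
        _ = ∫⁻ l, (h z * ‖z‖ₑ ^ (-(1 / 2) : ℝ)) * (‖z - l‖ₑ⁻¹ * W l) := by
            rw [lintegral_const_mul]
            fun_prop
        _ = _ := by
            refine lintegral_congr fun l => ?_
            ring
    refine e2.trans ?_
    rw [lintegral_lintegral_swap (by fun_prop), hJB, ← lintegral_const_mul _ (by fun_prop)]
    refine lintegral_mono_ae ?_
    filter_upwards [ae_ne_zero] with l hl
    rw [lintegral_const_mul _ (by fun_prop)]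
    calc W l * ∫⁻ z in S, h z * ‖z‖ₑ ^ (-(1 / 2) : ℝ) * ‖z - l‖ₑ⁻¹
        ≤ W l * (C₁ * (∫⁻ z in S, h z ^ q * ‖z‖ₑ ^ (q - 2)) ^ (1 / q) *
          ‖l‖ₑ ^ (-(1 / 2) : ℝ)) := mul_le_mul' le_rfl (hK h hh S hS l hl)
      _ = _ := by ring
  have h2 : J ≤ B := by
    refine half_absorb J B _ ?_ hJ h1
    exact (mul_le_mul' le_rfl (ENNReal.rpow_le_rpow hH (by positivity))).trans hε
  -- second estimate
  have h3 : ∫⁻ z, P z * a z * ‖z‖ₑ ^ (-(3 / 2) : ℝ) ≤ C₂ * (J + B) := by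
    have e2 : ∫⁻ z, P z * a z * ‖z‖ₑ ^ (-(3 / 2) : ℝ) ≤
        ∫⁻ z, ∫⁻ l, W l * (‖z‖ₑ ^ (-(3 / 2) : ℝ) * ‖z - l‖ₑ ^ (-1 : ℝ)) := by
      refine lintegral_mono_ae ?_
      filter_upwards [hin] with z hz
      calc P z * a z * ‖z‖ₑ ^ (-(3 / 2) : ℝ) = ‖z‖ₑ ^ (-(3 / 2) : ℝ) * (P z * a z) := by ring
        _ ≤ ‖z‖ₑ ^ (-(3 / 2) : ℝ) * ∫⁻ l, ‖z - l‖ₑ⁻¹ * W l := mul_le_mul' le_rfl hz
        _ = ∫⁻ l, ‖z‖ₑ ^ (-(3 / 2) : ℝ) * (‖z - l‖ₑ⁻¹ * W l) := by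
            rw [lintegral_const_mul]
            fun_prop
        _ = _ := by
            refine lintegral_congr fun l => ?_
            rw [ENNReal.rpow_neg_one]
            ring
    refine e2.trans ?_
    rw [lintegral_lintegral_swap (by fun_prop), hJB, ← lintegral_const_mul _ (by fun_prop)]
    refine lintegral_mono_ae ?_
    filter_upwards [ae_ne_zero] with l hl
    rw [lintegral_const_mul _ (by fun_prop)]
    have h5 := hk l hl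
    have e3 : (2 - 3 / 2 - 1 : ℝ) = -(1 / 2) := by norm_num
    rw [e3] at h5
    calc W l * ∫⁻ z, ‖z‖ₑ ^ (-(3 / 2) : ℝ) * ‖z - l‖ₑ ^ (-1 : ℝ)
        ≤ W l * (C₂ * ‖l‖ₑ ^ (-(1 / 2) : ℝ)) := mul_le_mul' le_rfl h5
      _ = _ := by ring
  calc ∫⁻ z, P z * a z * ‖z‖ₑ ^ (-(3 / 2) : ℝ) ≤ C₂ * (J + B) := h3
    _ ≤ C₂ * (B + B) := mul_le_mul' le_rfl (add_le_add h2 le_rfl)
    _ = C₂ * 2 * B := by rw [← two_mul]; ring

end Pool.Agent.R234.UC
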