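import Mathlib
import Pool.Agent.Helper366.IV.CP

/-! Vector valued Cauchy-Pompeiu inequality. -/

set_option autoImplicit false

open MeasureTheory Metric Set Filter Topology Complex
open scoped ContDiff ENNReal

namespace Pool.Agent.R234.UC

variable {F : Type*} [NormedAddCommGroup F] [NormedSpace ℂ F]

/-- the value on `1` of the antilinear part of a real linear map defined on `ℂ` -/
noncomputable def db (A : ℂ →L[ℝ] F) : F := (1 / 2 : ℂ) • (A 1 + I • A I)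

theorem cp_norm (φ : ℂ → F) (h : ContDiff ℝ 1 φ) (hc : HasCompactSupport φ) (z : ℂ) :
    ‖φ z‖ₑ ≤ ∫⁻ w, ‖z - w‖ₑ⁻¹ * ‖db (fderiv ℝ φ w)‖ₑ := by
  obtain ⟨ℓ, hℓ1, hℓ2⟩ := exists_dual_vector'' ℂ (φ z)
  set ψ : ℂ → ℂ := fun w => ℓ (φ w) with hψ
  have hψ1 : ContDiff ℝ 1 ψ := (ℓ.restrictScalars ℝ).contDiff.comp h
  have hψc : HasCompactSupport ψ := hc.comp_left (g := ℓ) (map_zero ℓ)
  have h1 := Pool.Agent.Helper366.IV.cauchy_pompeiu ψ hψ1 hψc z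
  have hfd : ∀ w v, fderiv ℝ ψ w v = ℓ (fderiv ℝ φ w v) := by
    intro w v
    have h2 : HasFDerivAt φ (fderiv ℝ φ w) w := (h.differentiable (by norm_num) w).hasFDerivAt
    have h3 : HasFDerivAt ψ ((ℓ.restrictScalars ℝ).comp (fderiv ℝ φ w)) w :=
      (ℓ.restrictScalars ℝ).hasFDerivAt.comp w h2
    rw [h3.fderiv]
    rfl
  have h4 : ∀ w, (fderiv ℝ ψ w 1 + I * fderiv ℝ ψ w I) / 2 = ℓ (db (fderiv ℝ φ w)) := by
    intro w
    rw [hfd, hfd, db, map_smul, map_add, map_smul, smul_eq_mul, smul_eq_mul]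
    ring
  have h5 : ‖φ z‖ₑ ≤ ‖(Real.pi : ℂ) * ψ z‖ₑ := by
    rw [hψ]
    simp only
    rw [hℓ2, enorm_mul]
    have e1 : ‖((‖φ z‖ : ℝ) : ℂ)‖ₑ = ‖φ z‖ₑ := by
      rw [← ofReal_norm, ← ofReal_norm, Complex.norm_real, norm_norm]
    have e2 : (1 : ℝ≥0∞) ≤ ‖(Real.pi : ℂ)‖ₑ := by
      rw [← ofReal_norm, Complex.norm_real, Real.norm_of_nonneg Real.pi_pos.le]
      rw [← ENNReal.ofReal_one]
      exact ENNReal.ofReal_le_ofReal (by linarith [Real.pi_gt_three])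
    calc ‖φ z‖ₑ = 1 * ‖φ z‖ₑ := (one_mul _).symm
      _ ≤ _ := by
        have e3 : ‖((‖φ z‖ : ℝ) : ℂ)‖ₑ = ‖φ z‖ₑ := e1
        refine mul_le_mul' e2 (le_of_eq ?_)
        exact e3.symm
  refine h5.trans ?_
  rw [← h1]
  refine (enorm_integral_le_lintegral_enorm _).trans ?_
  rw [← lintegral_sub_left_eq_self (fun w => ‖z - w‖ₑ⁻¹ * ‖db (fderiv ℝ φ w)‖ₑ) z]
  refine lintegral_mono fun w => ?_
  rw [h4 (z - w)]
  have e4 : ‖ℓ (db (fderiv ℝ φ (z - w)))‖ₑ ≤ ‖db (fderiv ℝ φ (z - w))‖ₑ := by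
    rw [← ofReal_norm, ← ofReal_norm]
    refine ENNReal.ofReal_le_ofReal ((ℓ.le_opNorm _).trans ?_)
    calc ‖ℓ‖ * ‖db (fderiv ℝ φ (z - w))‖ ≤ 1 * ‖db (fderiv ℝ φ (z - w))‖ :=
          mul_le_mul_of_nonneg_right hℓ1 (norm_nonneg _)
      _ = _ := one_mul _
  rcases eq_or_ne w 0 with rfl | hw
  · simp
  · rw [div_eq_mul_inv, enorm_mul, enorm_inv hw, mul_comm]
    have : z - (z - w) = w := by ring
    rw [this]
    exact mul_le_mul' le_rfl e4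

end Pool.Agent.R234.UC
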