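import Mathlib
import Pool.Agent.R234.UC.M2

/-! The cutoff functions. -/

set_option autoImplicit false

open MeasureTheory Metric Set Filter Topology Complex
open scoped ContDiff

namespace Pool.Agent.R234.UC

theorem exists_L : ∃ L : ℝ, 0 ≤ L ∧ ∀ x, |deriv Real.smoothTransition x| ≤ L := by
  have hc : Continuous (deriv Real.smoothTransition) :=
    (Real.smoothTransition.contDiff (n := 1)).continuous_deriv le_rfl
  have hs : HasCompactSupport (deriv Real.smoothTransition) := by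
    refine HasCompactSupport.intro (isCompact_Icc (a := (0 : ℝ)) (b := 1)) ?_
    intro x hx
    rw [mem_Icc, not_and_or, not_le, not_le] at hx
    rcases hx with hx | hx
    · have : Real.smoothTransition =ᶠ[𝓝 x] fun _ => (0 : ℝ) := by
        filter_upwards [Iio_mem_nhds hx] with y hy
        exact Real.smoothTransition.zero_of_nonpos (le_of_lt hy)
      rw [this.deriv_eq]
      simp
    · have : Real.smoothTransition =ᶠ[𝓝 x] fun _ => (1 : ℝ) := by
        filter_upwards [Ioi_mem_nhds hx] with y hy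
        exact Real.smoothTransition.one_of_one_le (le_of_lt hy)
      rw [this.deriv_eq]
      simp
  obtain ⟨L, hL⟩ := hs.exists_bound_of_continuous hc
  exact ⟨L, (norm_nonneg _).trans (hL 0), fun x => hL x⟩

/-- cutoff equal to one on the ball of radius `s`, to zero outside the ball of radius `t` -/
noncomputable def cut (s t : ℝ) (z : ℂ) : ℝ :=
  Real.smoothTransition ((t ^ 2 - ‖z‖ ^ 2) / (t ^ 2 - s ^ 2))

theorem cut_contDiff (s t : ℝ) : ContDiff ℝ ∞ (cut s t) := by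
  unfold cut
  refine Real.smoothTransition.contDiff.comp ?_
  refine ContDiff.div_const ?_ _
  exact contDiff_const.sub (contDiff_norm_sq ℝ)

theorem cut_one {s t : ℝ} (hs : 0 ≤ s) (hst : s < t) {z : ℂ} (hz : ‖z‖ ≤ s) : cut s t z = 1 := by
  unfold cut
  apply Real.smoothTransition.one_of_one_le
  have : 0 < t ^ 2 - s ^ 2 := by nlinarith
  rw [le_div_iff₀ this]
  nlinarith [norm_nonneg z]

theorem cut_zero {s t : ℝ} (hs : 0 ≤ s) (hst : s < t) {z : ℂ} (hz : t ≤ ‖z‖) : cut s t z = 0 := by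
  unfold cut
  apply Real.smoothTransition.zero_of_nonpos
  have : 0 < t ^ 2 - s ^ 2 := by nlinarith
  refine div_nonpos_of_nonpos_of_nonneg ?_ this.le
  nlinarith [norm_nonneg z]

theorem cut_nonneg (s t : ℝ) (z : ℂ) : 0 ≤ cut s t z := Real.smoothTransition.nonneg _

theorem cut_le_one (s t : ℝ) (z : ℂ) : cut s t z ≤ 1 := Real.smoothTransition.le_one _

theorem cut_fderiv_zero {s t : ℝ} (hs : 0 ≤ s) (hst : s < t) {z : ℂ} (hz : ‖z‖ < s ∨ t < ‖z‖) :
    fderiv ℝ (cut s t) z = 0 := by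
  rcases hz with hz | hz
  · have : cut s t =ᶠ[𝓝 z] fun _ => (1 : ℝ) := by
      filter_upwards [(isOpen_lt continuous_norm continuous_const).mem_nhds hz] with y hy
      exact cut_one hs hst (le_of_lt hy)
    rw [this.fderiv_eq]
    simp
  · have : cut s t =ᶠ[𝓝 z] fun _ => (0 : ℝ) := by
      filter_upwards [(isOpen_lt continuous_const continuous_norm).mem_nhds hz] with y hy
      exact cut_zero hs hst (le_of_lt hy)
    rw [this.fderiv_eq]
    simp

theorem cut_fderiv_le {L : ℝ} (hL : ∀ x, |deriv Real.smoothTransition x| ≤ L) {s t : ℝ}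
    (hs : 0 ≤ s) (hst : s < t) (z : ℂ) :
    ‖fderiv ℝ (cut s t) z‖ ≤
      (closedBall (0 : ℂ) t \ ball 0 s).indicator (fun _ => L * (2 * t / (t ^ 2 - s ^ 2))) z := by
  have h0 : 0 < t ^ 2 - s ^ 2 := by nlinarith
  have ht : 0 < t := by linarith
  by_cases hz : z ∈ closedBall (0 : ℂ) t \ ball 0 s
  · rw [indicator_of_mem hz]
    have hz1 : ‖z‖ ≤ t := by
      have := hz.1
      rwa [mem_closedBall_zero_iff] at this
    have h1 : HasFDerivAt (fun z : ℂ => (t ^ 2 - ‖z‖ ^ 2) / (t ^ 2 - s ^ 2))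
        ((t ^ 2 - s ^ 2)⁻¹ • (-(2 • innerSL ℝ z : ℂ →L[ℝ] ℝ))) z := by
      have h2 : HasFDerivAt (fun z : ℂ => ‖z‖ ^ 2) (2 • innerSL ℝ z) z :=
        (hasStrictFDerivAt_norm_sq z).hasFDerivAt
      have h3 := (h2.const_sub (t ^ 2)).const_smul (t ^ 2 - s ^ 2)⁻¹
      refine h3.congr_of_eventuallyEq (Filter.Eventually.of_forall fun w => ?_)
      simp only [Pi.smul_apply, smul_eq_mul]
      rw [div_eq_inv_mul]
    have h4 : HasDerivAt Real.smoothTransition (deriv Real.smoothTransition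
        ((t ^ 2 - ‖z‖ ^ 2) / (t ^ 2 - s ^ 2))) ((t ^ 2 - ‖z‖ ^ 2) / (t ^ 2 - s ^ 2)) :=
      (((Real.smoothTransition.contDiff (n := 1)).differentiable (by norm_num)) _).hasDerivAt
    have h5 := h4.comp_hasFDerivAt z h1
    have h6 : fderiv ℝ (cut s t) z = deriv Real.smoothTransition
        ((t ^ 2 - ‖z‖ ^ 2) / (t ^ 2 - s ^ 2)) •
          ((t ^ 2 - s ^ 2)⁻¹ • (-(2 • innerSL ℝ z : ℂ →L[ℝ] ℝ))) :=
      h5.fderiv
    rw [h6, norm_smul, norm_smul, norm_neg]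
    have h7 : ‖(2 • innerSL ℝ z : ℂ →L[ℝ] ℝ)‖ ≤ 2 * t := by
      rw [two_smul]
      refine (norm_add_le _ _).trans ?_
      rw [innerSL_apply_norm]
      linarith
    rw [Real.norm_of_nonneg (inv_nonneg.2 h0.le), Real.norm_eq_abs]
    have hL0 : 0 ≤ L := (abs_nonneg _).trans (hL 0)
    calc |deriv Real.smoothTransition ((t ^ 2 - ‖z‖ ^ 2) / (t ^ 2 - s ^ 2))| *
          ((t ^ 2 - s ^ 2)⁻¹ * ‖(2 • innerSL ℝ z : ℂ →L[ℝ] ℝ)‖)
        ≤ L * ((t ^ 2 - s ^ 2)⁻¹ * (2 * t)) := by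
          refine mul_le_mul (hL _) ?_ (by positivity) hL0
          exact mul_le_mul_of_nonneg_left h7 (inv_nonneg.2 h0.le)
      _ = _ := by
          rw [div_eq_inv_mul]
  · rw [indicator_of_notMem hz]
    rw [Set.mem_sdiff, not_and_or, not_not] at hz
    rw [mem_closedBall_zero_iff, not_le, mem_ball_zero_iff] at hz
    rw [cut_fderiv_zero hs hst hz.symm, norm_zero]

/-- the test functions -/
noncomputable def psi (N : ℕ) (δ r₁ r₂ : ℝ) (z : ℂ) : ℂ :=
  (z ^ N)⁻¹ * (((1 - cut (δ / 2) δ z) * cut r₁ r₂ z : ℝ) : ℂ)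

variable {N : ℕ} {δ r₁ r₂ : ℝ}

theorem psi_zero_near (hδ : 0 < δ) {z : ℂ} (hz : ‖z‖ ≤ δ / 2) : psi N δ r₁ r₂ z = 0 := by
  unfold psi
  rw [cut_one (by positivity) (by linarith) hz]
  simp

theorem psi_zero_far (h1 : 0 ≤ r₁) (h2 : r₁ < r₂) {z : ℂ} (hz : r₂ ≤ ‖z‖) :
    psi N δ r₁ r₂ z = 0 := by
  unfold psi
  rw [cut_zero h1 h2 hz]
  simp

theorem psi_contDiff (hδ : 0 < δ) : ContDiff ℝ 1 (psi N δ r₁ r₂) := by
  rw [contDiff_iff_contDiffAt]
  intro z
  rcases eq_or_ne z 0 with rfl | hz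
  · have : psi N δ r₁ r₂ =ᶠ[𝓝 0] fun _ => (0 : ℂ) := by
      filter_upwards [ball_mem_nhds (0 : ℂ) (half_pos hδ)] with y hy
      rw [mem_ball_zero_iff] at hy
      exact psi_zero_near hδ hy.le
    exact contDiffAt_const.congr_of_eventuallyEq this
  · unfold psi
    refine ContDiffAt.mul ?_ ?_
    · refine ContDiffAt.inv (contDiffAt_id.pow N) (pow_ne_zero _ hz)
    · have h1 : ContDiff ℝ ∞ fun z : ℂ => (1 - cut (δ / 2) δ z) * cut r₁ r₂ z :=
        (contDiff_const.sub (cut_contDiff _ _)).mul (cut_contDiff _ _)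
      exact (Complex.ofRealCLM.contDiff.comp (h1.of_le (by norm_num))).contDiffAt

theorem psi_tsupport (hδ : 0 < δ) (h1 : 0 ≤ r₁) (h2 : r₁ < r₂) :
    tsupport (psi N δ r₁ r₂) ⊆ closedBall 0 r₂ \ ball 0 (δ / 2) := by
  refine closure_minimal ?_ (isClosed_closedBall.sdiff isOpen_ball)
  intro z hz
  rw [Function.mem_support] at hz
  rw [Set.mem_sdiff, mem_closedBall_zero_iff, mem_ball_zero_iff, not_lt]
  constructor
  · by_contra hc
    exact hz (psi_zero_far h1 h2 (not_le.1 hc).le)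
  · by_contra hc
    exact hz (psi_zero_near hδ (not_le.1 hc).le)

theorem psi_compact (hδ : 0 < δ) (h1 : 0 ≤ r₁) (h2 : r₁ < r₂) :
    HasCompactSupport (psi N δ r₁ r₂) :=
  IsCompact.of_isClosed_subset (isCompact_closedBall 0 r₂) (isClosed_tsupport _)
    ((psi_tsupport hδ h1 h2).trans sdiff_subset)

theorem psi_norm_le (z : ℂ) : ‖psi N δ r₁ r₂ z‖ ≤ (‖z‖ ^ N)⁻¹ := by
  unfold psi
  rw [norm_mul, norm_inv, norm_pow, Complex.norm_real]
  have h1 := cut_nonneg (δ / 2) δ z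
  have h2 := cut_le_one (δ / 2) δ z
  have h3 := cut_nonneg r₁ r₂ z
  have h4 := cut_le_one r₁ r₂ z
  rw [Real.norm_of_nonneg (mul_nonneg (by linarith) h3)]
  refine mul_le_of_le_one_right (by positivity) ?_
  nlinarith

theorem psi_norm_eq (hδ : 0 < δ) (h1 : 0 ≤ r₁) (h2 : r₁ < r₂) {z : ℂ} (hz1 : δ ≤ ‖z‖)
    (hz2 : ‖z‖ ≤ r₁) : ‖psi N δ r₁ r₂ z‖ = (‖z‖ ^ N)⁻¹ := by
  unfold psi
  rw [cut_zero (by positivity) (by linarith) hz1, cut_one h1 h2 hz2]
  simp

theorem db_norm_le {F : Type*} [NormedAddCommGroup F] [NormedSpace ℂ F] (A : ℂ →L[ℝ] F) :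
    ‖db A‖ ≤ ‖A‖ := by
  unfold db
  rw [norm_smul]
  have h1 : ‖A 1‖ ≤ ‖A‖ := by
    have := A.le_opNorm 1
    rwa [norm_one, mul_one] at this
  have h2 : ‖I • A I‖ ≤ ‖A‖ := by
    rw [norm_smul, Complex.norm_I, one_mul]
    have := A.le_opNorm I
    rwa [Complex.norm_I, mul_one] at this
  have h3 : ‖(1 / 2 : ℂ)‖ = 1 / 2 := by norm_num
  rw [h3]
  have := norm_add_le (A 1) (I • A I)
  linarith

theorem psi_db_le {L : ℝ} (hL : ∀ x, |deriv Real.smoothTransition x| ≤ L) (hδ : 0 < δ)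
    (h1 : 0 ≤ r₁) (h2 : r₁ < r₂) (z : ℂ) :
    ‖db (fderiv ℝ (psi N δ r₁ r₂) z)‖ ≤
      (closedBall (0 : ℂ) δ \ ball 0 (δ / 2)).indicator
        (fun z => (‖z‖ ^ N)⁻¹ * (L * (8 / 3) / δ)) z +
      (closedBall (0 : ℂ) r₂ \ ball 0 r₁).indicator
        (fun z => (‖z‖ ^ N)⁻¹ * (L * (2 * r₂ / (r₂ ^ 2 - r₁ ^ 2)))) z := by
  have hL0 : 0 ≤ L := (abs_nonneg _).trans (hL 0)
  have hd0 : 0 < r₂ ^ 2 - r₁ ^ 2 := by nlinarith
  have hr0 : 0 < r₂ := by linarith
  rcases eq_or_ne z 0 with rfl | hz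
  · have h0 : psi N δ r₁ r₂ =ᶠ[𝓝 0] fun _ => (0 : ℂ) := by
      filter_upwards [ball_mem_nhds (0 : ℂ) (half_pos hδ)] with y hy
      rw [mem_ball_zero_iff] at hy
      exact psi_zero_near hδ hy.le
    rw [h0.fderiv_eq]
    have : db (fderiv ℝ (fun _ : ℂ => (0 : ℂ)) 0) = 0 := by
      unfold db
      simp
    rw [this, norm_zero]
    refine add_nonneg (indicator_nonneg (fun _ _ => by positivity) _)
      (indicator_nonneg (fun _ _ => by positivity) _)
  -- away from the origin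
  set θ : ℂ → ℝ := fun z => (1 - cut (δ / 2) δ z) * cut r₁ r₂ z with hθ
  have hc1 : HasFDerivAt (cut (δ / 2) δ) (fderiv ℝ (cut (δ / 2) δ) z) z :=
    ((cut_contDiff _ _).differentiable (by norm_num) z).hasFDerivAt
  have hc2 : HasFDerivAt (cut r₁ r₂) (fderiv ℝ (cut r₁ r₂) z) z :=
    ((cut_contDiff _ _).differentiable (by norm_num) z).hasFDerivAt
  set B : ℂ →L[ℝ] ℝ := (1 - cut (δ / 2) δ z) • fderiv ℝ (cut r₁ r₂) z +
    cut r₁ r₂ z • (-fderiv ℝ (cut (δ / 2) δ) z) with hB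
  have hθd : HasFDerivAt θ B z := (hc1.const_sub 1).mul hc2
  have hg : HasDerivAt (fun z : ℂ => (z ^ N)⁻¹) (deriv (fun z : ℂ => (z ^ N)⁻¹) z) z := by
    refine DifferentiableAt.hasDerivAt ?_
    exact (differentiableAt_id.pow N).inv (pow_ne_zero _ hz)
  have hg2 : HasFDerivAt (fun z : ℂ => (z ^ N)⁻¹)
      ((ContinuousLinearMap.toSpanSingleton ℂ (deriv (fun z : ℂ => (z ^ N)⁻¹) z)).restrictScalars ℝ)
      z := hg.hasFDerivAt.restrictScalars ℝ
  have hθc : HasFDerivAt (fun z => ((θ z : ℝ) : ℂ)) (Complex.ofRealCLM.comp B) z :=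
    Complex.ofRealCLM.hasFDerivAt.comp z hθd
  have hm := hg2.mul hθc
  have hfd : fderiv ℝ (psi N δ r₁ r₂) z = (z ^ N)⁻¹ • (Complex.ofRealCLM.comp B) +
      ((θ z : ℝ) : ℂ) • ((ContinuousLinearMap.toSpanSingleton ℂ
        (deriv (fun z : ℂ => (z ^ N)⁻¹) z)).restrictScalars ℝ) := hm.fderiv
  have hdb : db (fderiv ℝ (psi N δ r₁ r₂) z) = (z ^ N)⁻¹ * db (Complex.ofRealCLM.comp B) := by
    rw [hfd]
    unfold db
    simp only [add_apply, smul_apply, smul_eq_mul,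
      ContinuousLinearMap.coe_restrictScalars', ContinuousLinearMap.toSpanSingleton_apply]
    have hI : I * I = -1 := I_mul_I
    linear_combination (1 / 2 * (((θ z : ℝ) : ℂ) * deriv (fun z : ℂ => (z ^ N)⁻¹) z)) * hI
  have hBn : ‖B‖ ≤ ‖fderiv ℝ (cut (δ / 2) δ) z‖ + ‖fderiv ℝ (cut r₁ r₂) z‖ := by
    rw [hB]
    refine (norm_add_le _ _).trans ?_
    rw [norm_smul, norm_smul, norm_neg, add_comm]
    have h1 := cut_nonneg (δ / 2) δ z
    have h2 := cut_le_one (δ / 2) δ z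
    have h3 := cut_nonneg r₁ r₂ z
    have h4 := cut_le_one r₁ r₂ z
    rw [Real.norm_of_nonneg h3, Real.norm_of_nonneg (by linarith)]
    refine add_le_add ?_ ?_
    · exact mul_le_of_le_one_left (norm_nonneg _) h4
    · exact mul_le_of_le_one_left (norm_nonneg _) (by linarith)
  have hBc : ‖Complex.ofRealCLM.comp B‖ ≤ ‖B‖ := by
    refine (ContinuousLinearMap.opNorm_comp_le _ _).trans ?_
    rw [Complex.ofRealCLM_norm, one_mul]
  have e1 := cut_fderiv_le hL (by positivity : 0 ≤ δ / 2) (by linarith : δ / 2 < δ) z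
  have e2 := cut_fderiv_le hL h1 h2 z
  have e3 : L * (2 * δ / (δ ^ 2 - (δ / 2) ^ 2)) = L * (8 / 3) / δ := by
    have : δ ^ 2 - (δ / 2) ^ 2 = 3 / 4 * δ ^ 2 := by ring
    rw [this]
    field_simp
    ring
  rw [e3] at e1
  rw [hdb, norm_mul, norm_inv, norm_pow]
  calc (‖z‖ ^ N)⁻¹ * ‖db (Complex.ofRealCLM.comp B)‖
      ≤ (‖z‖ ^ N)⁻¹ * (‖fderiv ℝ (cut (δ / 2) δ) z‖ + ‖fderiv ℝ (cut r₁ r₂) z‖) :=
        mul_le_mul_of_nonneg_left (((db_norm_le _).trans hBc).trans hBn) (by positivity)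
    _ ≤ (‖z‖ ^ N)⁻¹ * ((closedBall (0 : ℂ) δ \ ball 0 (δ / 2)).indicator
          (fun _ => L * (8 / 3) / δ) z + (closedBall (0 : ℂ) r₂ \ ball 0 r₁).indicator
          (fun _ => L * (2 * r₂ / (r₂ ^ 2 - r₁ ^ 2))) z) :=
        mul_le_mul_of_nonneg_left (add_le_add e1 e2) (by positivity)
    _ = _ := by
        have hind : ∀ (S : Set ℂ) (c : ℝ), (‖z‖ ^ N)⁻¹ * S.indicator (fun _ => c) z =
            S.indicator (fun z => (‖z‖ ^ N)⁻¹ * c) z := by
          intro S c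
          by_cases h : z ∈ S
          · rw [indicator_of_mem h, indicator_of_mem h]
          · rw [indicator_of_notMem h, indicator_of_notMem h, mul_zero]
        rw [mul_add, hind, hind]

end Pool.Agent.R234.UC
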