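import Mathlib
import Pool.Agent.R234.UC.M4
import Pool.Agent.R234.UC.M5

/-! Unique continuation from infinite order vanishing along a disc. -/

set_option autoImplicit false

open MeasureTheory Metric Set Filter Topology Complex
open scoped ENNReal

namespace Pool.Agent.R234.UC

theorem rpow_neg_anti {x y : ℝ≥0∞} {t : ℝ} (ht : 0 ≤ t) (h : y ≤ x) : x ^ (-t) ≤ y ^ (-t) := by
  rw [ENNReal.rpow_neg, ENNReal.rpow_neg]
  exact ENNReal.inv_le_inv.2 (ENNReal.rpow_le_rpow h ht)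

theorem pow_inv_anti {x y : ℝ≥0∞} {N : ℕ} (h : y ≤ x) : (x ^ N)⁻¹ ≤ (y ^ N)⁻¹ :=
  ENNReal.inv_le_inv.2 (pow_le_pow_left' h N)

theorem ofReal_inv_pow {z : ℂ} (hz : z ≠ 0) (N : ℕ) :
    ENNReal.ofReal ((‖z‖ ^ N)⁻¹) = (‖z‖ₑ ^ N)⁻¹ := by
  have : 0 < ‖z‖ := norm_pos_iff.2 hz
  rw [ENNReal.ofReal_inv_of_pos (by positivity), ENNReal.ofReal_pow this.le, ofReal_norm]

/-- the value of the weight at distance `t` -/
noncomputable def wt (N : ℕ) (t : ℝ) : ℝ≥0∞ :=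
  (ENNReal.ofReal t ^ N)⁻¹ * ENNReal.ofReal t ^ (-(1 / 2) : ℝ)

theorem wt_ne_top (N : ℕ) {t : ℝ} (ht : 0 < t) : wt N t ≠ ∞ := by
  unfold wt
  refine ENNReal.mul_ne_top ?_ ?_
  · rw [Ne, ENNReal.inv_eq_top]
    exact pow_ne_zero _ (by rw [Ne, ENNReal.ofReal_eq_zero, not_le]; exact ht)
  · exact ENNReal.rpow_ne_top_of_ne_zero (by rw [Ne, ENNReal.ofReal_eq_zero, not_le]; exact ht)
      ENNReal.ofReal_ne_top

theorem le_wt (N : ℕ) {t : ℝ} {z : ℂ} (hz : t ≤ ‖z‖) :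
    (‖z‖ₑ ^ N)⁻¹ * ‖z‖ₑ ^ (-(1 / 2) : ℝ) ≤ wt N t := by
  have h : ENNReal.ofReal t ≤ ‖z‖ₑ := by
    rw [← ofReal_norm]
    exact ENNReal.ofReal_le_ofReal hz
  exact mul_le_mul' (pow_inv_anti h) (rpow_neg_anti (by norm_num) h)

theorem oneD (q : ℝ) (hq : 2 < q) : ∃ ε : ℝ≥0∞, 0 < ε ∧
    ∀ (a e h : ℂ → ℝ≥0∞), Measurable a → Measurable e → Measurable h →
      (∀ z, e z ≤ h z * a z) →
      ∀ (r₀ r₁ r₂ : ℝ), 0 ≤ r₀ → 0 < r₁ → r₁ < r₂ →
      (∀ᵐ z, ‖z‖ < r₀ → a z = 0) →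
      (∫⁻ z in closedBall 0 r₂ \ ball 0 r₀, h z ^ q * ‖z‖ₑ ^ (q - 2) ≤ ε) →
      (∀ M : ℕ, Tendsto (fun k : ℕ => (2 : ℝ≥0∞) ^ (M * k) *
        ∫⁻ z in closedBall 0 ((1 / 2) ^ k), a z) atTop (𝓝 0)) →
      (∫⁻ z in closedBall 0 r₂, a z ≠ ∞) →
      (∀ δ : ℝ, 0 < δ → ∫⁻ z in closedBall 0 r₂ \ ball 0 δ, e z ≠ ∞) →
      (∀ N k : ℕ, ∀ᵐ z, ‖psi N ((1 / 2) ^ k) r₁ r₂ z‖ₑ * a z ≤
        ∫⁻ l, ‖z - l‖ₑ⁻¹ * (‖psi N ((1 / 2) ^ k) r₁ r₂ l‖ₑ * e l +
          ‖db (fderiv ℝ (psi N ((1 / 2) ^ k) r₁ r₂) l)‖ₑ * a l)) →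
      ∀ᵐ z, ‖z‖ < r₁ → a z = 0 := by
  obtain ⟨ε, hε, C, hC, hcore⟩ := core q hq
  obtain ⟨L, hL0, hL⟩ := exists_L
  refine ⟨ε, hε, ?_⟩
  intro a e h ha he hh heh r₀ r₁ r₂ hr0 hr1 hr12 hz0 hH hvan hfa hfe hin
  have hr2 : 0 < r₂ := hr1.trans hr12
  set A : ℝ≥0∞ := ∫⁻ z in closedBall 0 r₂, a z with hA
  set C₂ : ℝ≥0∞ := ENNReal.ofReal (L * (2 * r₂ / (r₂ ^ 2 - r₁ ^ 2))) with hC₂
  set S₀ : Set ℂ := closedBall 0 r₂ \ ball 0 r₀ with hS₀
  have hS₀m : MeasurableSet S₀ := measurableSet_closedBall.diff measurableSet_ball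
  -- the key estimate for each `N`, `k`
  have key : ∀ N k : ℕ,
      ∫⁻ z, ‖psi N ((1 / 2) ^ k) r₁ r₂ z‖ₑ * a z * ‖z‖ₑ ^ (-(3 / 2) : ℝ) ≤
        C * (ENNReal.ofReal (L * (8 / 3)) * 2 ^ (N + 1) * (2 ^ ((N + 2) * k) *
          ∫⁻ z in closedBall 0 ((1 / 2) ^ k), a z) + C₂ * wt N r₁ * A) := by
    intro N k
    set δ : ℝ := (1 / 2) ^ k with hδdef
    have hδ : 0 < δ := by positivity
    have hδ1 : δ ≤ 1 := pow_le_one₀ (by norm_num) (by norm_num)
    set P : ℂ → ℝ≥0∞ := fun z => ‖psi N δ r₁ r₂ z‖ₑ with hP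
    set Q : ℂ → ℝ≥0∞ := fun z => ‖db (fderiv ℝ (psi N δ r₁ r₂) z)‖ₑ with hQ
    have hcd : ContDiff ℝ 1 (psi N δ r₁ r₂) := psi_contDiff hδ
    have hPm : Measurable P := by
      have : Continuous P := hcd.continuous.enorm
      exact this.measurable
    have hQm : Measurable Q := by
      have h1 : Continuous (fderiv ℝ (psi N δ r₁ r₂)) := hcd.continuous_fderiv (by norm_num)
      have : Continuous Q := by
        rw [hQ]
        unfold db
        fun_prop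
      exact this.measurable
    have hPle : ∀ z, z ≠ 0 → P z ≤ (‖z‖ₑ ^ N)⁻¹ := by
      intro z hz
      rw [hP]
      simp only
      rw [← ofReal_norm, ← ofReal_inv_pow hz]
      exact ENNReal.ofReal_le_ofReal (psi_norm_le z)
    have hP0 : ∀ z, z ∉ closedBall (0 : ℂ) r₂ \ ball 0 (δ / 2) → P z = 0 := by
      intro z hz
      have : psi N δ r₁ r₂ z = 0 := by
        by_contra hc
        exact hz (psi_tsupport hδ hr1.le hr12 (subset_tsupport _ hc))
      rw [hP]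
      simp [this]
    -- finiteness
    have hJ : ∫⁻ z, P z * e z * ‖z‖ₑ ^ (-(1 / 2) : ℝ) ≠ ∞ := by
      have hm : MeasurableSet (closedBall (0 : ℂ) r₂ \ ball 0 (δ / 2)) :=
        measurableSet_closedBall.diff measurableSet_ball
      have h1 : ∫⁻ z, P z * e z * ‖z‖ₑ ^ (-(1 / 2) : ℝ) ≤
          wt N (δ / 2) * ∫⁻ z in closedBall 0 r₂ \ ball 0 (δ / 2), e z := by
        rw [← lintegral_const_mul _ he, ← lintegral_indicator hm]
        refine lintegral_mono fun z => ?_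
        by_cases hz : z ∈ closedBall (0 : ℂ) r₂ \ ball 0 (δ / 2)
        · rw [indicator_of_mem hz]
          have hz2 : δ / 2 ≤ ‖z‖ := by
            have := hz.2
            rwa [mem_ball_zero_iff, not_lt] at this
          have hz3 : z ≠ 0 := by
            intro h0
            rw [h0, norm_zero] at hz2
            linarith
          calc P z * e z * ‖z‖ₑ ^ (-(1 / 2) : ℝ)
              ≤ (‖z‖ₑ ^ N)⁻¹ * e z * ‖z‖ₑ ^ (-(1 / 2) : ℝ) :=
                mul_le_mul' (mul_le_mul' (hPle z hz3) le_rfl) le_rfl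
            _ = ((‖z‖ₑ ^ N)⁻¹ * ‖z‖ₑ ^ (-(1 / 2) : ℝ)) * e z := by ring
            _ ≤ _ := mul_le_mul' (le_wt N hz2) le_rfl
        · rw [indicator_of_notMem hz, hP0 z hz]
          simp
      refine ne_top_of_le_ne_top ?_ h1
      exact ENNReal.mul_ne_top (wt_ne_top N (by positivity)) (hfe _ (by positivity))
    have hPe : ∀ᵐ z, z ∉ S₀ → P z * e z = 0 := by
      filter_upwards [hz0] with z hz hzS
      rw [hS₀, Set.mem_sdiff, not_and_or, not_not] at hzS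
      rcases hzS with h1 | h1
      · rw [hP0 z (fun h2 => h1 h2.1), zero_mul]
      · rw [mem_ball_zero_iff] at h1
        have h2 : e z ≤ 0 := by
          refine (heh z).trans ?_
          rw [hz h1, mul_zero]
        rw [nonpos_iff_eq_zero.1 h2, mul_zero]
    have hmain := hcore a e h P Q ha he hh hPm hQm heh S₀ hS₀m hPe hH (hin N k) hJ
    refine hmain.trans (mul_le_mul' le_rfl ?_)
    -- bound of the boundary terms
    have hm1 : MeasurableSet (closedBall (0 : ℂ) δ \ ball 0 (δ / 2)) :=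
      measurableSet_closedBall.diff measurableSet_ball
    have hm2 : MeasurableSet (closedBall (0 : ℂ) r₂ \ ball 0 r₁) :=
      measurableSet_closedBall.diff measurableSet_ball
    have hQle : ∀ z, z ≠ 0 → Q z * a z * ‖z‖ₑ ^ (-(1 / 2) : ℝ) ≤
        (closedBall (0 : ℂ) δ \ ball 0 (δ / 2)).indicator
          (fun z => ENNReal.ofReal (L * (8 / 3) / δ) * wt N (δ / 2) * a z) z +
        (closedBall (0 : ℂ) r₂ \ ball 0 r₁).indicator (fun z => C₂ * wt N r₁ * a z) z := by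
      intro z hz
      have h1 := psi_db_le (N := N) hL hδ hr1.le hr12 z
      have h2 : Q z ≤ (closedBall (0 : ℂ) δ \ ball 0 (δ / 2)).indicator
          (fun z => (‖z‖ₑ ^ N)⁻¹ * ENNReal.ofReal (L * (8 / 3) / δ)) z +
          (closedBall (0 : ℂ) r₂ \ ball 0 r₁).indicator (fun z => (‖z‖ₑ ^ N)⁻¹ * C₂) z := by
        rw [hQ]
        simp only
        rw [← ofReal_norm]
        refine (ENNReal.ofReal_le_ofReal h1).trans (ENNReal.ofReal_add_le.trans ?_)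
        refine add_le_add ?_ ?_
        · by_cases hS : z ∈ closedBall (0 : ℂ) δ \ ball 0 (δ / 2)
          · rw [indicator_of_mem hS, indicator_of_mem hS, ENNReal.ofReal_mul (by positivity),
              ofReal_inv_pow hz]
          · rw [indicator_of_notMem hS, indicator_of_notMem hS, ENNReal.ofReal_zero]
        · by_cases hS : z ∈ closedBall (0 : ℂ) r₂ \ ball 0 r₁
          · rw [indicator_of_mem hS, indicator_of_mem hS, ENNReal.ofReal_mul (by positivity),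
              ofReal_inv_pow hz]
          · rw [indicator_of_notMem hS, indicator_of_notMem hS, ENNReal.ofReal_zero]
      calc Q z * a z * ‖z‖ₑ ^ (-(1 / 2) : ℝ)
          ≤ ((closedBall (0 : ℂ) δ \ ball 0 (δ / 2)).indicator
          (fun z => (‖z‖ₑ ^ N)⁻¹ * ENNReal.ofReal (L * (8 / 3) / δ)) z +
          (closedBall (0 : ℂ) r₂ \ ball 0 r₁).indicator (fun z => (‖z‖ₑ ^ N)⁻¹ * C₂) z) *
            a z * ‖z‖ₑ ^ (-(1 / 2) : ℝ) := mul_le_mul' (mul_le_mul' h2 le_rfl) le_rfl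
        _ = (closedBall (0 : ℂ) δ \ ball 0 (δ / 2)).indicator
          (fun z => (‖z‖ₑ ^ N)⁻¹ * ENNReal.ofReal (L * (8 / 3) / δ)) z *
            a z * ‖z‖ₑ ^ (-(1 / 2) : ℝ) +
          (closedBall (0 : ℂ) r₂ \ ball 0 r₁).indicator (fun z => (‖z‖ₑ ^ N)⁻¹ * C₂) z *
            a z * ‖z‖ₑ ^ (-(1 / 2) : ℝ) := by rw [add_mul, add_mul]
        _ ≤ _ := by
          refine add_le_add ?_ ?_
          · by_cases hS : z ∈ closedBall (0 : ℂ) δ \ ball 0 (δ / 2)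
            · rw [indicator_of_mem hS, indicator_of_mem hS]
              have hz2 : δ / 2 ≤ ‖z‖ := by
                have := hS.2
                rwa [mem_ball_zero_iff, not_lt] at this
              calc (‖z‖ₑ ^ N)⁻¹ * ENNReal.ofReal (L * (8 / 3) / δ) * a z *
                    ‖z‖ₑ ^ (-(1 / 2) : ℝ) = ENNReal.ofReal (L * (8 / 3) / δ) *
                    ((‖z‖ₑ ^ N)⁻¹ * ‖z‖ₑ ^ (-(1 / 2) : ℝ)) * a z := by ring
                _ ≤ _ := mul_le_mul' (mul_le_mul' le_rfl (le_wt N hz2)) le_rfl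
            · rw [indicator_of_notMem hS, indicator_of_notMem hS]
              simp
          · by_cases hS : z ∈ closedBall (0 : ℂ) r₂ \ ball 0 r₁
            · rw [indicator_of_mem hS, indicator_of_mem hS]
              have hz2 : r₁ ≤ ‖z‖ := by
                have := hS.2
                rwa [mem_ball_zero_iff, not_lt] at this
              calc (‖z‖ₑ ^ N)⁻¹ * C₂ * a z *
                    ‖z‖ₑ ^ (-(1 / 2) : ℝ) = C₂ *
                    ((‖z‖ₑ ^ N)⁻¹ * ‖z‖ₑ ^ (-(1 / 2) : ℝ)) * a z := by ring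
                _ ≤ _ := mul_le_mul' (mul_le_mul' le_rfl (le_wt N hz2)) le_rfl
            · rw [indicator_of_notMem hS, indicator_of_notMem hS]
              simp
    have hsum : ∫⁻ z, Q z * a z * ‖z‖ₑ ^ (-(1 / 2) : ℝ) ≤
        ENNReal.ofReal (L * (8 / 3) / δ) * wt N (δ / 2) * (∫⁻ z in closedBall 0 δ, a z) +
        C₂ * wt N r₁ * A := by
      calc ∫⁻ z, Q z * a z * ‖z‖ₑ ^ (-(1 / 2) : ℝ)
          ≤ ∫⁻ z, ((closedBall (0 : ℂ) δ \ ball 0 (δ / 2)).indicator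
          (fun z => ENNReal.ofReal (L * (8 / 3) / δ) * wt N (δ / 2) * a z) z +
          (closedBall (0 : ℂ) r₂ \ ball 0 r₁).indicator (fun z => C₂ * wt N r₁ * a z) z) :=
            lintegral_mono_ae (by filter_upwards [ae_ne_zero] with z hz using hQle z hz)
        _ = ENNReal.ofReal (L * (8 / 3) / δ) * wt N (δ / 2) *
              (∫⁻ z in closedBall 0 δ \ ball 0 (δ / 2), a z) +
            C₂ * wt N r₁ * ∫⁻ z in closedBall 0 r₂ \ ball 0 r₁, a z := by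
            rw [lintegral_add_left ((ha.const_mul _).indicator hm1), lintegral_indicator hm1,
              lintegral_indicator hm2, lintegral_const_mul _ ha, lintegral_const_mul _ ha]
        _ ≤ _ := by
            refine add_le_add (mul_le_mul' le_rfl ?_) (mul_le_mul' le_rfl ?_)
            · exact lintegral_mono_set sdiff_subset
            · exact lintegral_mono_set sdiff_subset
    refine hsum.trans (add_le_add ?_ le_rfl)
    rw [← mul_assoc]
    refine mul_le_mul' ?_ le_rfl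
    have hhalf : ENNReal.ofReal (1 / 2) = (2 : ℝ≥0∞)⁻¹ := by
      rw [one_div, ENNReal.ofReal_inv_of_pos (by norm_num), ENNReal.ofReal_ofNat]
    have e1 : ENNReal.ofReal (δ / 2) = ((2 : ℝ≥0∞) ^ (k + 1))⁻¹ := by
      have : δ / 2 = (1 / 2) ^ (k + 1) := by rw [hδdef, pow_succ]; ring
      rw [this, ENNReal.ofReal_pow (by norm_num), hhalf, ENNReal.inv_pow]
    have e2 : wt N (δ / 2) ≤ 2 ^ ((k + 1) * (N + 1)) := by
      unfold wt
      rw [e1]
      have h1 : (((2 : ℝ≥0∞) ^ (k + 1))⁻¹) ^ (-(1 / 2) : ℝ) ≤ 2 ^ (k + 1) := by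
        rw [ENNReal.rpow_neg, ← ENNReal.inv_rpow, inv_inv]
        have h2 : (1 : ℝ≥0∞) ≤ 2 ^ (k + 1) := one_le_pow₀ (by norm_num)
        calc ((2 : ℝ≥0∞) ^ (k + 1)) ^ (1 / 2 : ℝ) ≤ ((2 : ℝ≥0∞) ^ (k + 1)) ^ (1 : ℝ) :=
              ENNReal.rpow_le_rpow_of_exponent_le h2 (by norm_num)
          _ = _ := ENNReal.rpow_one _
      calc ((((2 : ℝ≥0∞) ^ (k + 1))⁻¹) ^ N)⁻¹ * (((2 : ℝ≥0∞) ^ (k + 1))⁻¹) ^ (-(1 / 2) : ℝ)
          ≤ ((2 : ℝ≥0∞) ^ (k + 1)) ^ N * 2 ^ (k + 1) := by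
            refine mul_le_mul' (le_of_eq ?_) h1
            rw [ENNReal.inv_pow, inv_inv]
        _ = _ := by rw [← pow_succ, ← pow_mul]
    have e3 : ENNReal.ofReal (L * (8 / 3) / δ) = ENNReal.ofReal (L * (8 / 3)) * 2 ^ k := by
      rw [div_eq_mul_inv, ENNReal.ofReal_mul (by positivity)]
      congr 1
      rw [hδdef, ← inv_pow, one_div, inv_inv, ENNReal.ofReal_pow (by norm_num),
        ENNReal.ofReal_ofNat]
    rw [e3]
    calc ENNReal.ofReal (L * (8 / 3)) * 2 ^ k * wt N (δ / 2)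
        ≤ ENNReal.ofReal (L * (8 / 3)) * 2 ^ k * 2 ^ ((k + 1) * (N + 1)) :=
          mul_le_mul' le_rfl e2
      _ = ENNReal.ofReal (L * (8 / 3)) * 2 ^ (N + 1) * 2 ^ ((N + 2) * k) := by
          rw [mul_assoc, mul_assoc, ← pow_add, ← pow_add]
          congr 2
          ring
  -- conclusion on annuli
  have hann : ∀ (k₀ : ℕ) (r : ℝ), 0 < r → r < r₁ →
      ∫⁻ z in closedBall 0 r \ ball 0 ((1 / 2) ^ k₀), a z = 0 := by
    intro k₀ r hr hrr
    set T : Set ℂ := closedBall 0 r \ ball 0 ((1 / 2) ^ k₀) with hT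
    have hTm : MeasurableSet T := measurableSet_closedBall.diff measurableSet_ball
    have hr' : ENNReal.ofReal r ≠ 0 := by rw [Ne, ENNReal.ofReal_eq_zero, not_le]; exact hr
    have hr1' : ENNReal.ofReal r₁ ≠ 0 := by rw [Ne, ENNReal.ofReal_eq_zero, not_le]; exact hr1
    -- lower bound
    have hlow : ∀ N k : ℕ, k₀ ≤ k → (ENNReal.ofReal r ^ N)⁻¹ * ENNReal.ofReal r ^ (-(3 / 2) : ℝ) *
        ∫⁻ z in T, a z ≤
        ∫⁻ z, ‖psi N ((1 / 2) ^ k) r₁ r₂ z‖ₑ * a z * ‖z‖ₑ ^ (-(3 / 2) : ℝ) := by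
      intro N k hk
      rw [← lintegral_const_mul _ ha]
      refine le_trans ?_ (lintegral_mono' (Measure.restrict_le_self (s := T)) le_rfl)
      refine setLIntegral_mono' hTm fun z hz => ?_
      have hz1 : ‖z‖ ≤ r := by
        have := hz.1
        rwa [mem_closedBall_zero_iff] at this
      have hz2 : (1 / 2 : ℝ) ^ k₀ ≤ ‖z‖ := by
        have := hz.2
        rwa [mem_ball_zero_iff, not_lt] at this
      have hz3 : (1 / 2 : ℝ) ^ k ≤ ‖z‖ :=
        (pow_le_pow_of_le_one (by norm_num) (by norm_num) hk).trans hz2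
      have hz0 : z ≠ 0 := by
        intro h0
        rw [h0, norm_zero] at hz2
        have : (0 : ℝ) < (1 / 2) ^ k₀ := by positivity
        linarith
      have hzr : ‖z‖ₑ ≤ ENNReal.ofReal r := by
        rw [← ofReal_norm]
        exact ENNReal.ofReal_le_ofReal hz1
      have e1 : ‖psi N ((1 / 2) ^ k) r₁ r₂ z‖ₑ = (‖z‖ₑ ^ N)⁻¹ := by
        rw [← ofReal_norm, psi_norm_eq (by positivity) hr1.le hr12 hz3 (by linarith),
          ofReal_inv_pow hz0]
      rw [e1]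
      calc (ENNReal.ofReal r ^ N)⁻¹ * ENNReal.ofReal r ^ (-(3 / 2) : ℝ) * a z
          ≤ (‖z‖ₑ ^ N)⁻¹ * ‖z‖ₑ ^ (-(3 / 2) : ℝ) * a z :=
            mul_le_mul' (mul_le_mul' (pow_inv_anti hzr) (rpow_neg_anti (by norm_num) hzr)) le_rfl
        _ = _ := by ring
    have hlim : ∀ N : ℕ, (ENNReal.ofReal r ^ N)⁻¹ * ENNReal.ofReal r ^ (-(3 / 2) : ℝ) *
        ∫⁻ z in T, a z ≤ C * (C₂ * wt N r₁ * A) := by
      intro N
      have ht : Tendsto (fun k : ℕ => C * (ENNReal.ofReal (L * (8 / 3)) * 2 ^ (N + 1) *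
          (2 ^ ((N + 2) * k) * ∫⁻ z in closedBall 0 ((1 / 2) ^ k), a z) + C₂ * wt N r₁ * A))
          atTop (𝓝 (C * (ENNReal.ofReal (L * (8 / 3)) * 2 ^ (N + 1) * 0 + C₂ * wt N r₁ * A))) := by
        refine ENNReal.Tendsto.const_mul ?_ (Or.inr hC)
        refine Tendsto.add ?_ tendsto_const_nhds
        refine ENNReal.Tendsto.const_mul (hvan (N + 2)) (Or.inr ?_)
        exact ENNReal.mul_ne_top ENNReal.ofReal_ne_top (by simp)
      rw [mul_zero, zero_add] at ht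
      refine ge_of_tendsto ht ?_
      filter_upwards [Filter.eventually_ge_atTop k₀] with k hk
      exact (hlow N k hk).trans (key N k)
    set D : ℝ≥0∞ := ENNReal.ofReal r ^ (3 / 2 : ℝ) * (C * C₂ * A) *
      ENNReal.ofReal r₁ ^ (-(1 / 2) : ℝ) with hD
    have hDt : D ≠ ∞ := by
      refine ENNReal.mul_ne_top (ENNReal.mul_ne_top ?_ ?_) ?_
      · exact ENNReal.rpow_ne_top_of_nonneg (by norm_num) ENNReal.ofReal_ne_top
      · exact ENNReal.mul_ne_top (ENNReal.mul_ne_top hC ENNReal.ofReal_ne_top) hfa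
      · exact ENNReal.rpow_ne_top_of_ne_zero hr1' ENNReal.ofReal_ne_top
    have hfin : ∀ N : ℕ, ∫⁻ z in T, a z ≤ D * (ENNReal.ofReal r / ENNReal.ofReal r₁) ^ N := by
      intro N
      have h1 := hlim N
      have h2 : ENNReal.ofReal r ^ N * ENNReal.ofReal r ^ (3 / 2 : ℝ) *
          ((ENNReal.ofReal r ^ N)⁻¹ * ENNReal.ofReal r ^ (-(3 / 2) : ℝ)) = 1 := by
        have h3 : ENNReal.ofReal r ^ N * (ENNReal.ofReal r ^ N)⁻¹ = 1 :=
          ENNReal.mul_inv_cancel (pow_ne_zero _ hr') (ENNReal.pow_ne_top ENNReal.ofReal_ne_top)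
        have h4 : ENNReal.ofReal r ^ (3 / 2 : ℝ) * ENNReal.ofReal r ^ (-(3 / 2) : ℝ) = 1 := by
          rw [← ENNReal.rpow_add _ _ hr' ENNReal.ofReal_ne_top]
          simp
        calc _ = (ENNReal.ofReal r ^ N * (ENNReal.ofReal r ^ N)⁻¹) *
              (ENNReal.ofReal r ^ (3 / 2 : ℝ) * ENNReal.ofReal r ^ (-(3 / 2) : ℝ)) := by ring
          _ = 1 := by rw [h3, h4, one_mul]
      calc ∫⁻ z in T, a z = ENNReal.ofReal r ^ N * ENNReal.ofReal r ^ (3 / 2 : ℝ) *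
          ((ENNReal.ofReal r ^ N)⁻¹ * ENNReal.ofReal r ^ (-(3 / 2) : ℝ)) * ∫⁻ z in T, a z := by
            rw [h2, one_mul]
        _ = ENNReal.ofReal r ^ N * ENNReal.ofReal r ^ (3 / 2 : ℝ) *
          ((ENNReal.ofReal r ^ N)⁻¹ * ENNReal.ofReal r ^ (-(3 / 2) : ℝ) * ∫⁻ z in T, a z) := by
            ring
        _ ≤ ENNReal.ofReal r ^ N * ENNReal.ofReal r ^ (3 / 2 : ℝ) * (C * (C₂ * wt N r₁ * A)) :=
            mul_le_mul' le_rfl h1
        _ = _ := by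
            rw [hD, wt, div_eq_mul_inv (ENNReal.ofReal r), mul_pow, ENNReal.inv_pow]
            ring
    have hlt : ENNReal.ofReal r / ENNReal.ofReal r₁ < 1 := by
      rw [ENNReal.div_lt_iff (Or.inl hr1') (Or.inl ENNReal.ofReal_ne_top), one_mul]
      exact (ENNReal.ofReal_lt_ofReal_iff hr1).2 hrr
    have ht : Tendsto (fun N : ℕ => D * (ENNReal.ofReal r / ENNReal.ofReal r₁) ^ N) atTop
        (𝓝 (D * 0)) :=
      ENNReal.Tendsto.const_mul (ENNReal.tendsto_pow_atTop_nhds_zero_of_lt_one hlt) (Or.inr hDt)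
    rw [mul_zero] at ht
    have := ge_of_tendsto' ht hfin
    exact nonpos_iff_eq_zero.1 this
  -- all annuli together
  have hae : ∀ k₀ j : ℕ, ∀ᵐ z : ℂ, z ∈ closedBall 0 (r₁ * (1 - 1 / (j + 2))) \
      ball 0 ((1 / 2) ^ k₀) → a z = 0 := by
    intro k₀ j
    have hj : (0 : ℝ) < 1 - 1 / ((j : ℝ) + 2) := by
      rw [sub_pos, div_lt_one (by positivity)]
      have : (0 : ℝ) ≤ j := Nat.cast_nonneg j
      linarith
    have h1 := hann k₀ (r₁ * (1 - 1 / (j + 2))) (by positivity) (by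
      have : (0 : ℝ) < 1 / ((j : ℝ) + 2) := by positivity
      nlinarith)
    rw [lintegral_eq_zero_iff ha] at h1
    exact (ae_restrict_iff' (measurableSet_closedBall.diff measurableSet_ball)).1 h1
  have hall := ae_all_iff.2 fun k₀ => ae_all_iff.2 (hae k₀)
  filter_upwards [hall, ae_ne_zero] with z hz hz0' hzr
  have hzpos : 0 < ‖z‖ := norm_pos_iff.2 hz0'
  obtain ⟨k₀, hk₀⟩ := exists_pow_lt_of_lt_one hzpos (by norm_num : (1 / 2 : ℝ) < 1)
  obtain ⟨j, hj⟩ := exists_nat_gt (r₁ / (r₁ - ‖z‖))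
  refine hz k₀ j ⟨?_, ?_⟩
  · rw [mem_closedBall_zero_iff]
    have h1 : 0 < r₁ - ‖z‖ := by linarith
    rw [div_lt_iff₀ h1] at hj
    have h2 : r₁ * (1 / ((j : ℝ) + 2)) ≤ r₁ - ‖z‖ := by
      rw [mul_one_div, div_le_iff₀ (by positivity)]
      nlinarith
    linarith
  · rw [mem_ball_zero_iff, not_lt]
    exact hk₀.le

end Pool.Agent.R234.UC
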