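import Mathlib

/-! Complex scaling of Lebesgue measure and integration over complex lines. -/

set_option autoImplicit false

open MeasureTheory Metric Set Filter Topology Complex
open scoped ContDiff ENNReal

namespace Pool.Agent.R234.UC

/-- complex Euclidean space -/
abbrev Cn (n : ℕ) := EuclideanSpace ℂ (Fin n)

variable {n : ℕ}

theorem unit_mp (e : ℂ) (he : ‖e‖ = 1) :
    MeasurePreserving (fun z : Cn n => e • z) volume volume := by
  have he0 : e ≠ 0 := by
    intro h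
    rw [h, norm_zero] at he
    exact zero_ne_one he
  let L : Cn n ≃ₗᵢ[ℝ] Cn n :=
    { toLinearEquiv := (LinearEquiv.smulOfNeZero ℂ (Cn n) e he0).restrictScalars ℝ
      norm_map' := fun x => by
        show ‖e • x‖ = ‖x‖
        rw [norm_smul, he, one_mul] }
  exact L.measurePreserving

theorem lintegral_comp_rsmul (r : ℝ) (hr : 0 < r) (f : Cn n → ℝ≥0∞) (hf : Measurable f) :
    ∫⁻ z, f (r • z) = (ENNReal.ofReal r ^ (2 * n))⁻¹ * ∫⁻ y, f y := by
  have h := Measure.map_addHaar_smul (volume : Measure (Cn n)) hr.ne'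
  have h1 : ∫⁻ z, f (r • z) = ∫⁻ y, f y ∂(Measure.map (r • ·) (volume : Measure (Cn n))) := by
    rw [lintegral_map hf (by fun_prop)]
  rw [h1, h, lintegral_smul_measure]
  have h2 : Module.finrank ℝ (Cn n) = 2 * n := by
    rw [finrank_real_of_complex, finrank_euclideanSpace, Fintype.card_fin]
  rw [h2, smul_eq_mul, abs_of_pos (by positivity), ENNReal.ofReal_inv_of_pos (by positivity),
    ENNReal.ofReal_pow hr.le]

theorem lintegral_comp_csmul (l : ℂ) (hl : l ≠ 0) (f : Cn n → ℝ≥0∞) (hf : Measurable f) :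
    ∫⁻ z, f (l • z) = (‖l‖ₑ ^ (2 * n))⁻¹ * ∫⁻ y, f y := by
  have hl0 : 0 < ‖l‖ := norm_pos_iff.2 hl
  have he : ‖l / (‖l‖ : ℂ)‖ = 1 := by
    rw [norm_div, Complex.norm_real, norm_norm, div_self hl0.ne']
  have h1 : ∀ z : Cn n, l • z = ‖l‖ • ((l / (‖l‖ : ℂ)) • z) := by
    intro z
    rw [← Complex.coe_smul, smul_smul]
    congr 1
    have : (‖l‖ : ℂ) ≠ 0 := by exact_mod_cast hl0.ne'
    field_simp
  have h2 : ∫⁻ z, f (l • z) = ∫⁻ z : Cn n, (fun y => f (‖l‖ • y)) ((l / (‖l‖ : ℂ)) • z) := by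
    refine lintegral_congr fun z => ?_
    rw [h1 z]
  have h3 : Measurable fun y : Cn n => f (‖l‖ • y) := by fun_prop
  have h4 := (unit_mp (n := n) _ he).lintegral_comp h3
  rw [h2]
  refine h4.trans ?_
  rw [lintegral_comp_rsmul _ hl0 f hf, ofReal_norm]

/-- the annulus of directions -/
def Ann (n : ℕ) : Set (Cn n) := {z | 1 ≤ ‖z‖ ∧ ‖z‖ ≤ 2}

theorem measurableSet_Ann : MeasurableSet (Ann n) :=
  (measurableSet_le measurable_const measurable_norm).inter
    (measurableSet_le measurable_norm measurable_const)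

theorem pull (c : Cn n) (J : ℂ → ℝ≥0∞) (hJ : Measurable J) (w : Cn n → ℝ≥0∞)
    (hw : Measurable w) :
    ∫⁻ z in Ann n, ∫⁻ l, J l * w (c + l • z) =
      ∫⁻ l, J l * ((‖l‖ₑ ^ (2 * n))⁻¹ *
        ∫⁻ y in {y | ‖l‖ ≤ ‖y - c‖ ∧ ‖y - c‖ ≤ 2 * ‖l‖}, w y) := by
  rw [lintegral_lintegral_swap (by fun_prop)]
  have h0 : ∀ᵐ l : ℂ, l ≠ 0 := by
    have := Measure.ae_ne (volume : Measure ℂ) 0
    exact this
  refine lintegral_congr_ae ?_
  filter_upwards [h0] with l hl
  have hl0 : 0 < ‖l‖ := norm_pos_iff.2 hl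
  rw [lintegral_const_mul _ (by fun_prop)]
  congr 1
  set S : Set (Cn n) := {y | ‖l‖ ≤ ‖y‖ ∧ ‖y‖ ≤ 2 * ‖l‖} with hS
  have hSm : MeasurableSet S :=
    (measurableSet_le measurable_const measurable_norm).inter
      (measurableSet_le measurable_norm measurable_const)
  have hSm' : MeasurableSet {y | ‖l‖ ≤ ‖y - c‖ ∧ ‖y - c‖ ≤ 2 * ‖l‖} := by
    have : MeasurableSet ((fun y : Cn n => ‖y - c‖) ⁻¹' Icc ‖l‖ (2 * ‖l‖)) :=
      (by fun_prop : Measurable fun y : Cn n => ‖y - c‖) measurableSet_Icc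
    exact this
  have e1 : ∫⁻ z in Ann n, w (c + l • z) =
      ∫⁻ z, (fun y => S.indicator (fun y => w (c + y)) y) (l • z) := by
    rw [← lintegral_indicator measurableSet_Ann]
    refine lintegral_congr fun z => ?_
    have hiff : z ∈ Ann n ↔ l • z ∈ S := by
      rw [hS, Ann, mem_ofPred_eq, mem_ofPred_eq, norm_smul]
      constructor
      · rintro ⟨h1, h2⟩
        exact ⟨le_mul_of_one_le_right hl0.le h1, by nlinarith⟩
      · rintro ⟨h1, h2⟩
        exact ⟨by nlinarith, by nlinarith⟩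
    by_cases hz : z ∈ Ann n
    · rw [indicator_of_mem hz]
      simp only
      rw [indicator_of_mem (hiff.1 hz)]
    · rw [indicator_of_notMem hz]
      simp only
      rw [indicator_of_notMem (fun h => hz (hiff.2 h))]
  have hm : Measurable (S.indicator (fun y => w (c + y))) :=
    Measurable.indicator (by fun_prop) hSm
  rw [e1, lintegral_comp_csmul l hl _ hm]
  congr 1
  rw [← lintegral_indicator hSm', ← lintegral_sub_right_eq_self _ c]
  refine lintegral_congr fun y => ?_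
  by_cases hy : y - c ∈ S
  · rw [indicator_of_mem hy, indicator_of_mem (show y ∈ {y | ‖l‖ ≤ ‖y - c‖ ∧ ‖y - c‖ ≤ 2 * ‖l‖}
      from hy)]
    congr 1
    abel
  · rw [indicator_of_notMem hy, indicator_of_notMem (show y ∉ {y | ‖l‖ ≤ ‖y - c‖ ∧
      ‖y - c‖ ≤ 2 * ‖l‖} from hy)]

end Pool.Agent.R234.UC
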