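import Mathlib
import Pool.Agent.R234.UC.M1
import Pool.Agent.R234.UC.M2
import Pool.Agent.R234.UC.M3
import Pool.Agent.R234.UC.K
import Pool.Agent.Helper930.WD

/-! The Cauchy-Pompeiu inequality along almost every line. -/

set_option autoImplicit false

open MeasureTheory Metric Set Filter Topology Complex
open scoped ENNReal

namespace Pool.Agent.R234.UC

variable {n m : ℕ}

/-- the antilinear part of a real linear map -/
noncomputable def al (A : Cn n →L[ℝ] Cn m) (z : Cn n) : Cn m := (1 / 2 : ℂ) • (A z + I • A (I • z))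

theorem al_norm_le (A : Cn n →L[ℝ] Cn m) (z : Cn n) : ‖al A z‖ ≤ ‖A‖ * ‖z‖ := by
  unfold al
  rw [norm_smul]
  have h1 : ‖A z‖ ≤ ‖A‖ * ‖z‖ := A.le_opNorm z
  have h2 : ‖I • A (I • z)‖ ≤ ‖A‖ * ‖z‖ := by
    rw [norm_smul, Complex.norm_I, one_mul]
    have := A.le_opNorm (I • z)
    rwa [norm_smul, Complex.norm_I, one_mul] at this
  have h3 : ‖(1 / 2 : ℂ)‖ = 1 / 2 := by norm_num
  rw [h3]
  have := norm_add_le (A z) (I • A (I • z))
  linarith

theorem al_sub (A B : Cn n →L[ℝ] Cn m) (z : Cn n) : al (A - B) z = al A z - al B z := by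
  unfold al
  simp only [sub_apply, smul_sub, smul_add]
  abel

theorem al_continuous : Continuous fun p : (Cn n →L[ℝ] Cn m) × Cn n => al p.1 p.2 := by
  unfold al
  fun_prop

theorem line_int (ρ : ℝ) : ∃ C : ℝ≥0∞, C ≠ ∞ ∧ ∀ l : ℂ,
    ∫⁻ z in closedBall (0 : ℂ) ρ, ‖z - l‖ₑ⁻¹ ≤ C := by
  refine ⟨(∫⁻ z : ℂ in ball 0 1, ‖z‖ₑ ^ (-1 : ℝ)) + volume (closedBall (0 : ℂ) ρ), ?_, ?_⟩
  · exact ENNReal.add_ne_top.2 ⟨(near 1 (by norm_num)).ne, measure_closedBall_lt_top.ne⟩
  · intro l
    have h1 : ∀ z : ℂ, (closedBall (0 : ℂ) ρ).indicator (fun z => ‖z - l‖ₑ⁻¹) z ≤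
        (ball (0 : ℂ) 1).indicator (fun z => ‖z‖ₑ ^ (-1 : ℝ)) (z - l) +
        (closedBall (0 : ℂ) ρ).indicator (fun _ => 1) z := by
      intro z
      by_cases hz : z ∈ closedBall (0 : ℂ) ρ
      · rw [indicator_of_mem hz, indicator_of_mem hz]
        by_cases hzl : z - l ∈ ball (0 : ℂ) 1
        · rw [indicator_of_mem hzl, ENNReal.rpow_neg_one]
          exact le_self_add
        · rw [indicator_of_notMem hzl, zero_add]
          rw [mem_ball_zero_iff, not_lt] at hzl
          rw [ENNReal.inv_le_one, ← ofReal_norm, ← ENNReal.ofReal_one]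
          exact ENNReal.ofReal_le_ofReal hzl
      · rw [indicator_of_notMem hz]
        exact zero_le
    rw [← lintegral_indicator measurableSet_closedBall]
    refine (lintegral_mono h1).trans ?_
    have hm : Measurable ((closedBall (0 : ℂ) ρ).indicator (fun _ => (1 : ℝ≥0∞))) :=
      measurable_const.indicator measurableSet_closedBall
    rw [lintegral_add_right _ hm, lintegral_sub_right_eq_self
      (fun z => (ball (0 : ℂ) 1).indicator (fun z => ‖z‖ₑ ^ (-1 : ℝ)) z) l,
      lintegral_indicator measurableSet_ball, lintegral_indicator measurableSet_closedBall]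
    simp

/-- smooth approximation on a smaller ball -/
theorem approx (c : Cn n) (R : ℝ) (g : Cn n → Cn m) (G : Cn n → Cn n →L[ℝ] Cn m)
    (hgm : StronglyMeasurable g) (hGm : StronglyMeasurable G) (hg : Integrable g)
    (hG : Integrable G) (hw : Pool.Agent.Helper930.WD.WeakDerivOn (ball c R) g G)
    (R' : ℝ) (hR : R' < R) (η : ℝ≥0∞) (hη : 0 < η) :
    ∃ (v : Cn n → Cn m) (Gv : Cn n → Cn n →L[ℝ] Cn m), ContDiff ℝ 1 v ∧ StronglyMeasurable Gv ∧
      (∀ z ∈ closedBall c R', fderiv ℝ v z = Gv z) ∧ (∫⁻ z, ‖v z - g z‖ₑ ≤ η) ∧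
      (∫⁻ z, ‖Gv z - G z‖ₑ ≤ η) := by
  obtain ⟨ε₁, hε₁, h1⟩ := transl_cont g hg η hη
  obtain ⟨ε₂, hε₂, h2⟩ := transl_cont G hG η hη
  set ε : ℝ := min (min ε₁ ε₂) (R - R') with hε
  have hε0 : 0 < ε := lt_min (lt_min hε₁ hε₂) (by linarith)
  let b : ContDiffBump (0 : Cn n) := ⟨ε / 4, ε / 2, by positivity, by linarith⟩
  set φ : Cn n → ℝ := b.normed volume with hφ
  have hφc : Continuous φ := b.continuous_normed
  have hφd : ContDiff ℝ ((⊤ : ℕ∞) : WithTop ℕ∞) φ := b.contDiff_normed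
  have hφs : HasCompactSupport φ := b.hasCompactSupport_normed
  have hφ0 : ∀ t, 0 ≤ φ t := b.nonneg_normed
  have hφ1 : ∫ t, φ t = 1 := b.integral_normed
  have htsupp : tsupport φ ⊆ closedBall 0 (ε / 2) := by
    rw [hφ, b.tsupport_normed_eq]
  have hφε : ∀ t, φ t ≠ 0 → ‖t‖ < ε := by
    intro t ht
    have := htsupp (subset_tsupport _ ht)
    rw [mem_closedBall_zero_iff] at this
    linarith
  have hmv : ∀ z, Pool.Agent.Helper930.WD.moll φ g z = ∫ t, φ t • g (z - t) := by
    intro z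
    unfold Pool.Agent.Helper930.WD.moll
    rw [← integral_sub_left_eq_self (fun w => φ (z - w) • g w) volume z]
    simp
  have hmG : ∀ z, Pool.Agent.Helper930.WD.moll φ G z = ∫ t, φ t • G (z - t) := by
    intro z
    unfold Pool.Agent.Helper930.WD.moll
    rw [← integral_sub_left_eq_self (fun w => φ (z - w) • G w) volume z]
    simp
  have hcontv : ContDiff ℝ 1 (Pool.Agent.Helper930.WD.moll φ g) := by
    have h3 : Pool.Agent.Helper930.WD.moll φ g =
        (MeasureTheory.convolution φ g (ContinuousLinearMap.lsmul ℝ ℝ) volume) :=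
      funext fun z => (Pool.Agent.Helper930.WD.convolution_eq_moll φ g z).symm
    rw [h3]
    exact_mod_cast hφs.contDiff_convolution_left (n := 1)
      (ContinuousLinearMap.lsmul ℝ ℝ : ℝ →L[ℝ] Cn m →L[ℝ] Cn m)
      (hφd.of_le (by norm_num)) hg.locallyIntegrable
  have hcontG : Continuous (Pool.Agent.Helper930.WD.moll φ G) := by
    have h3 : Pool.Agent.Helper930.WD.moll φ G =
        (MeasureTheory.convolution φ G (ContinuousLinearMap.lsmul ℝ ℝ) volume) :=
      funext fun z => (Pool.Agent.Helper930.WD.convolution_eq_moll φ G z).symm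
    rw [h3]
    exact hφs.continuous_convolution_left (ContinuousLinearMap.lsmul ℝ ℝ) hφc hG.locallyIntegrable
  refine ⟨Pool.Agent.Helper930.WD.moll φ g, Pool.Agent.Helper930.WD.moll φ G, hcontv,
    hcontG.stronglyMeasurable, ?_, ?_, ?_⟩
  · intro z hz
    obtain ⟨A, hA1, hA2⟩ := Pool.Agent.Helper930.WD.moll_hasFDerivAt hφd hφs
      hg.locallyIntegrable z
    rw [hA1.fderiv]
    ext1 v
    rw [hA2 v]
    have hsub : closedBall z (ε / 2) ⊆ ball c R := by
      intro y hy
      rw [mem_closedBall] at hz hy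
      rw [mem_ball]
      have h4 : ε ≤ R - R' := min_le_right _ _
      have := dist_triangle y z c
      linarith
    rw [Pool.Agent.Helper930.WD.moll_weak hw hφd hφs htsupp hsub (fun _ _ => rfl) v]
    unfold Pool.Agent.Helper930.WD.moll
    have hint : Integrable (fun w => φ (z - w) • G w) := by
      have := hφs.convolutionExists_left (ContinuousLinearMap.lsmul ℝ ℝ :
        ℝ →L[ℝ] (Cn n →L[ℝ] Cn m) →L[ℝ] (Cn n →L[ℝ] Cn m)) hφc hG.locallyIntegrable z
      exact this.integrable_swap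
    rw [ContinuousLinearMap.integral_apply hint]
    rfl
  · have := mollify_L1 g hgm hg φ hφc hφs hφ0 hφ1 ε hφε η (fun t ht => h1 t
      (lt_of_lt_of_le ht ((min_le_left _ _).trans (min_le_left _ _))))
    simp_rw [hmv]
    exact this
  · have := mollify_L1 G hGm hG φ hφc hφs hφ0 hφ1 ε hφε η (fun t ht => h2 t
      (lt_of_lt_of_le ht ((min_le_left _ _).trans (min_le_right _ _))))
    simp_rw [hmG]
    exact this

end Pool.Agent.R234.UC
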