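import Mathlib
import Pool.Agent.R234.UC.M5
import Pool.Agent.R234.UC.M7

/-! The Cauchy-Pompeiu inequality along almost every line, continued. -/

set_option autoImplicit false

open MeasureTheory Metric Set Filter Topology Complex
open scoped ENNReal

namespace Pool.Agent.R234.UC

variable {n m : ℕ}

/-- the inequality for smooth functions -/
theorem smooth_slice (c : Cn n) (v : Cn n → Cn m) (hv : ContDiff ℝ 1 v) (ψ : ℂ → ℂ)
    (hψ : ContDiff ℝ 1 ψ) (hψc : HasCompactSupport ψ) (z : Cn n) (ζ : ℂ) :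
    ‖ψ ζ‖ₑ * ‖v (c + ζ • z)‖ₑ ≤ ∫⁻ l, ‖ζ - l‖ₑ⁻¹ *
      (‖ψ l‖ₑ * ‖al (fderiv ℝ v (c + l • z)) z‖ₑ + ‖db (fderiv ℝ ψ l)‖ₑ * ‖v (c + l • z)‖ₑ) := by
  set φ : ℂ → Cn m := fun l => ψ l • v (c + l • z) with hφ
  have hlin : ContDiff ℝ 1 fun l : ℂ => c + l • z := by
    have : ContDiff ℝ 1 fun l : ℂ => l • z := contDiff_id.smul contDiff_const
    exact contDiff_const.add this
  have hφd : ContDiff ℝ 1 φ := hψ.smul (hv.comp hlin)
  have hφc : HasCompactSupport φ := hψc.smul_right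
  have h1 := cp_norm φ hφd hφc ζ
  have h2 : ‖φ ζ‖ₑ = ‖ψ ζ‖ₑ * ‖v (c + ζ • z)‖ₑ := by
    rw [hφ]
    exact enorm_smul _ _
  rw [← h2]
  refine h1.trans (lintegral_mono fun l => mul_le_mul' le_rfl ?_)
  have hd1 : HasFDerivAt ψ (fderiv ℝ ψ l) l := (hψ.differentiable (by norm_num) l).hasFDerivAt
  have hd2 : HasFDerivAt (fun l : ℂ => c + l • z)
      ((ContinuousLinearMap.toSpanSingleton ℂ z).restrictScalars ℝ) l := by
    have : HasFDerivAt (fun l : ℂ => l • z) (ContinuousLinearMap.toSpanSingleton ℂ z) l :=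
      (ContinuousLinearMap.toSpanSingleton ℂ z).hasFDerivAt
    exact (this.restrictScalars ℝ).const_add c
  have hd3 : HasFDerivAt v (fderiv ℝ v (c + l • z)) (c + l • z) :=
    (hv.differentiable (by norm_num) _).hasFDerivAt
  have hd4 := hd3.comp l hd2
  have hd5 := hd1.smul hd4
  have hfd : fderiv ℝ φ l = ψ l • (fderiv ℝ v (c + l • z)).comp
      ((ContinuousLinearMap.toSpanSingleton ℂ z).restrictScalars ℝ) +
      (fderiv ℝ ψ l).smulRight (v (c + l • z)) := hd5.fderiv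
  have hdb : db (fderiv ℝ φ l) = ψ l • al (fderiv ℝ v (c + l • z)) z +
      db (fderiv ℝ ψ l) • v (c + l • z) := by
    rw [hfd]
    unfold db al
    simp only [add_apply, smul_apply, ContinuousLinearMap.smulRight_apply,
      ContinuousLinearMap.comp_apply, ContinuousLinearMap.coe_restrictScalars',
      ContinuousLinearMap.toSpanSingleton_apply, one_smul, smul_add, smul_smul, smul_eq_mul,
      mul_add, add_smul]
    have e1 : I * ψ l = ψ l * I := mul_comm _ _
    module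
  rw [hdb]
  refine (enorm_add_le _ _).trans ?_
  rw [enorm_smul, enorm_smul]

theorem slice_ineq (c : Cn n) (R : ℝ) (g : Cn n → Cn m) (G : Cn n → Cn n →L[ℝ] Cn m)
    (hgm : StronglyMeasurable g) (hGm : StronglyMeasurable G) (hg : Integrable g)
    (hG : Integrable G) (hw : Pool.Agent.Helper930.WD.WeakDerivOn (ball c R) g G)
    (ψ : ℂ → ℂ) (hψ : ContDiff ℝ 1 ψ) (δ ρ : ℝ) (hδ : 0 < δ) (hρ : 2 * ρ < R)
    (hψs : tsupport ψ ⊆ closedBall 0 ρ \ ball 0 δ) :
    ∀ᵐ z ∂(volume.restrict (Ann n)), ∀ᵐ ζ : ℂ, ‖ψ ζ‖ₑ * ‖g (c + ζ • z)‖ₑ ≤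
      ∫⁻ l, ‖ζ - l‖ₑ⁻¹ * (‖ψ l‖ₑ * ‖al (G (c + l • z)) z‖ₑ +
        ‖db (fderiv ℝ ψ l)‖ₑ * ‖g (c + l • z)‖ₑ) := by
  set T : Set ℂ := closedBall 0 ρ \ ball 0 δ with hT
  have hTm : MeasurableSet T := measurableSet_closedBall.diff measurableSet_ball
  have hψc : HasCompactSupport ψ :=
    IsCompact.of_isClosed_subset (isCompact_closedBall 0 ρ) (isClosed_tsupport _)
      (hψs.trans sdiff_subset)
  have hψ0 : ∀ l, l ∉ T → ψ l = 0 := by
    intro l hl
    by_contra hc
    exact hl (hψs (subset_tsupport _ hc))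
  have hdψ0 : ∀ l, l ∉ T → fderiv ℝ ψ l = 0 := by
    intro l hl
    by_contra hc
    exact hl (hψs (support_fderiv_subset ℝ hc))
  have hfc : Continuous (fderiv ℝ ψ) := hψ.continuous_fderiv (by norm_num)
  have hdbc : Continuous fun l => db (fderiv ℝ ψ l) := by
    unfold db
    fun_prop
  -- bounds
  obtain ⟨M, hM, hM1, hM2⟩ : ∃ M : ℝ≥0∞, M ≠ ∞ ∧ (∀ l, ‖ψ l‖ₑ ≤ M) ∧
      (∀ l, ‖db (fderiv ℝ ψ l)‖ₑ ≤ M) := by
    obtain ⟨M₁, h1⟩ := hψc.exists_bound_of_continuous hψ.continuous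
    obtain ⟨M₂, h2⟩ := (hψc.fderiv ℝ).exists_bound_of_continuous hfc
    refine ⟨ENNReal.ofReal (max M₁ M₂), ENNReal.ofReal_ne_top, fun l => ?_, fun l => ?_⟩
    · rw [← ofReal_norm]
      exact ENNReal.ofReal_le_ofReal ((h1 l).trans (le_max_left _ _))
    · rw [← ofReal_norm]
      exact ENNReal.ofReal_le_ofReal (((db_norm_le _).trans (h2 l)).trans (le_max_right _ _))
  obtain ⟨Cρ, hCρ, hline⟩ := line_int ρ
  -- left and right sides
  set a : Cn n × ℂ → ℝ≥0∞ := fun p => ‖g (c + p.2 • p.1)‖ₑ with ha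
  set e : Cn n × ℂ → ℝ≥0∞ := fun p => ‖al (G (c + p.2 • p.1)) p.1‖ₑ with he
  have hmap : Measurable fun p : Cn n × ℂ => c + p.2 • p.1 := by fun_prop
  have ham : Measurable a := (hgm.comp_measurable hmap).enorm
  have hem : Measurable e := by
    have h1 : StronglyMeasurable fun p : Cn n × ℂ => (G (c + p.2 • p.1), p.1) :=
      (hGm.comp_measurable hmap).prodMk measurable_fst.stronglyMeasurable
    exact (al_continuous.comp_stronglyMeasurable h1).enorm
  have hψm : Measurable fun l => ‖ψ l‖ₑ := hψ.continuous.enorm.measurable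
  have hdm : Measurable fun l => ‖db (fderiv ℝ ψ l)‖ₑ := hdbc.enorm.measurable
  set Rt : Cn n × ℂ → ℝ≥0∞ := fun p => ∫⁻ l, ‖p.2 - l‖ₑ⁻¹ *
    (‖ψ l‖ₑ * e (p.1, l) + ‖db (fderiv ℝ ψ l)‖ₑ * a (p.1, l)) with hRt
  have hRtm : Measurable Rt := by
    have : Measurable fun q : (Cn n × ℂ) × ℂ => ‖q.1.2 - q.2‖ₑ⁻¹ *
      (‖ψ q.2‖ₑ * e (q.1.1, q.2) + ‖db (fderiv ℝ ψ q.2)‖ₑ * a (q.1.1, q.2)) :=
      ((measurable_fst.snd.sub measurable_snd).enorm.inv).mul
        (((hψm.comp measurable_snd).mul (hem.comp (measurable_fst.fst.prodMk measurable_snd))).add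
        ((hdm.comp measurable_snd).mul (ham.comp (measurable_fst.fst.prodMk measurable_snd))))
    exact this.lintegral_prod_right'
  set Lt : Cn n × ℂ → ℝ≥0∞ := fun p => ‖ψ p.2‖ₑ * a p with hLt
  have hLtm : Measurable Lt := (hψm.comp measurable_snd).mul ham
  set K : ℝ≥0∞ := ∫⁻ l, T.indicator (fun _ => 1) l * (‖l‖ₑ ^ (2 * n))⁻¹ with hK
  have hKt : K ≠ ∞ := by
    have : K ≤ (ENNReal.ofReal δ ^ (2 * n))⁻¹ * volume (closedBall (0 : ℂ) ρ) := by
      rw [hK, ← setLIntegral_const, ← lintegral_indicator measurableSet_closedBall]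
      refine lintegral_mono fun l => ?_
      by_cases hl : l ∈ T
      · rw [indicator_of_mem hl, indicator_of_mem hl.1, one_mul]
        refine ENNReal.inv_le_inv.2 (pow_le_pow_left' ?_ _)
        have := hl.2
        rw [mem_ball_zero_iff, not_lt] at this
        rw [← ofReal_norm]
        exact ENNReal.ofReal_le_ofReal this
      · rw [indicator_of_notMem hl, zero_mul]
        exact zero_le
    refine ne_top_of_le_ne_top (ENNReal.mul_ne_top ?_ measure_closedBall_lt_top.ne) this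
    rw [Ne, ENNReal.inv_eq_top]
    exact pow_ne_zero _ (by rw [Ne, ENNReal.ofReal_eq_zero, not_le]; exact hδ)
  -- main bound
  have hmain : ∀ η : ℝ≥0∞, 0 < η → ∫⁻ z in Ann n, ∫⁻ ζ in closedBall 0 ρ, (Lt (z, ζ) - Rt (z, ζ)) ≤
      3 * M * ((Cρ + 1) * (K * (η + η))) := by
    intro η hη
    obtain ⟨v, Gv, hv, hGvm, hfd, hv1, hv2⟩ := approx c R g G hgm hGm hg hG hw (2 * ρ) hρ η hη
    set w : Cn n → ℝ≥0∞ := fun y => ‖v y - g y‖ₑ + ‖Gv y - G y‖ₑ with hwdef
    have hwm : Measurable w :=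
      ((hv.continuous.stronglyMeasurable.sub hgm).enorm).add ((hGvm.sub hGm).enorm)
    have hwi : ∫⁻ y, w y ≤ η + η := by
      have h1 := lintegral_add_left (μ := (volume : Measure (Cn n)))
        (f := fun y => ‖v y - g y‖ₑ) ((hv.continuous.stronglyMeasurable.sub hgm).enorm)
        (fun y => ‖Gv y - G y‖ₑ)
      calc ∫⁻ y, w y = _ := h1
        _ ≤ _ := add_le_add hv1 hv2
    set J : ℂ → ℝ≥0∞ := T.indicator (fun _ => 1) with hJ
    have hJm : Measurable J := measurable_const.indicator hTm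
    -- pointwise bound
    have hpt : ∀ z ∈ Ann n, ∀ ζ, Lt (z, ζ) - Rt (z, ζ) ≤
        3 * M * ((∫⁻ l, ‖ζ - l‖ₑ⁻¹ * (J l * w (c + l • z))) + J ζ * w (c + ζ • z)) := by
      intro z hz ζ
      rw [tsub_le_iff_left]
      have hz2 : ‖z‖ ≤ 2 := hz.2
      have hs := smooth_slice c v hv ψ hψ hψc z ζ
      -- replace the derivative by `Gv`
      have hrep : ∀ l, ‖ψ l‖ₑ * ‖al (fderiv ℝ v (c + l • z)) z‖ₑ +
          ‖db (fderiv ℝ ψ l)‖ₑ * ‖v (c + l • z)‖ₑ ≤
          (‖ψ l‖ₑ * e (z, l) + ‖db (fderiv ℝ ψ l)‖ₑ * a (z, l)) +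
            3 * M * (J l * w (c + l • z)) := by
        intro l
        by_cases hl : l ∈ T
        · have hball : c + l • z ∈ closedBall c (2 * ρ) := by
            rw [mem_closedBall, dist_self_add_left, norm_smul]
            have := hl.1
            rw [mem_closedBall_zero_iff] at this
            nlinarith [norm_nonneg l, norm_nonneg z]
          rw [hfd _ hball]
          have hJl : J l = 1 := by rw [hJ, indicator_of_mem hl]
          rw [hJl, one_mul]
          have h1 : ‖al (Gv (c + l • z)) z‖ₑ ≤ e (z, l) + 2 * ‖Gv (c + l • z) - G (c + l • z)‖ₑ := by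
            have h2 : al (Gv (c + l • z)) z = al (G (c + l • z)) z +
                al (Gv (c + l • z) - G (c + l • z)) z := by
              rw [al_sub]
              abel
            rw [h2]
            refine (enorm_add_le _ _).trans (add_le_add le_rfl ?_)
            have h3 := al_norm_le (Gv (c + l • z) - G (c + l • z)) z
            have h4 : ‖al (Gv (c + l • z) - G (c + l • z)) z‖ ≤
                2 * ‖Gv (c + l • z) - G (c + l • z)‖ := by
              nlinarith [norm_nonneg (Gv (c + l • z) - G (c + l • z))]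
            rw [← ofReal_norm, ← ofReal_norm]
            refine (ENNReal.ofReal_le_ofReal h4).trans (le_of_eq ?_)
            rw [ENNReal.ofReal_mul (by norm_num), ENNReal.ofReal_ofNat]
          have h5 : ‖v (c + l • z)‖ₑ ≤ a (z, l) + ‖v (c + l • z) - g (c + l • z)‖ₑ := by
            have h6 : v (c + l • z) = g (c + l • z) + (v (c + l • z) - g (c + l • z)) := by abel
            calc ‖v (c + l • z)‖ₑ = ‖g (c + l • z) + (v (c + l • z) - g (c + l • z))‖ₑ := by
                  rw [← h6]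
              _ ≤ _ := enorm_add_le _ _
          calc ‖ψ l‖ₑ * ‖al (Gv (c + l • z)) z‖ₑ + ‖db (fderiv ℝ ψ l)‖ₑ * ‖v (c + l • z)‖ₑ
              ≤ ‖ψ l‖ₑ * (e (z, l) + 2 * ‖Gv (c + l • z) - G (c + l • z)‖ₑ) +
                ‖db (fderiv ℝ ψ l)‖ₑ * (a (z, l) + ‖v (c + l • z) - g (c + l • z)‖ₑ) :=
                add_le_add (mul_le_mul' le_rfl h1) (mul_le_mul' le_rfl h5)
            _ = (‖ψ l‖ₑ * e (z, l) + ‖db (fderiv ℝ ψ l)‖ₑ * a (z, l)) +
                (‖ψ l‖ₑ * (2 * ‖Gv (c + l • z) - G (c + l • z)‖ₑ) +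
                ‖db (fderiv ℝ ψ l)‖ₑ * ‖v (c + l • z) - g (c + l • z)‖ₑ) := by ring
            _ ≤ _ := by
                refine add_le_add le_rfl ?_
                calc ‖ψ l‖ₑ * (2 * ‖Gv (c + l • z) - G (c + l • z)‖ₑ) +
                    ‖db (fderiv ℝ ψ l)‖ₑ * ‖v (c + l • z) - g (c + l • z)‖ₑ
                    ≤ M * (2 * w (c + l • z)) + M * w (c + l • z) := by
                      refine add_le_add (mul_le_mul' (hM1 l) (mul_le_mul' le_rfl ?_))
                        (mul_le_mul' (hM2 l) ?_)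
                      · exact le_add_self
                      · exact le_self_add
                  _ = 3 * M * w (c + l • z) := by ring
        · rw [hψ0 l hl, hdψ0 l hl]
          have : db (0 : ℂ →L[ℝ] ℂ) = 0 := by
            unfold db
            simp
          rw [this]
          simp
      have hs2 : ‖ψ ζ‖ₑ * ‖v (c + ζ • z)‖ₑ ≤ Rt (z, ζ) +
          3 * M * ∫⁻ l, ‖ζ - l‖ₑ⁻¹ * (J l * w (c + l • z)) := by
        refine hs.trans ?_
        calc ∫⁻ l, ‖ζ - l‖ₑ⁻¹ * (‖ψ l‖ₑ * ‖al (fderiv ℝ v (c + l • z)) z‖ₑ +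
              ‖db (fderiv ℝ ψ l)‖ₑ * ‖v (c + l • z)‖ₑ)
            ≤ ∫⁻ l, (‖ζ - l‖ₑ⁻¹ * (‖ψ l‖ₑ * e (z, l) + ‖db (fderiv ℝ ψ l)‖ₑ * a (z, l)) +
              3 * M * (‖ζ - l‖ₑ⁻¹ * (J l * w (c + l • z)))) := by
              refine lintegral_mono fun l => (mul_le_mul' le_rfl (hrep l)).trans (le_of_eq ?_)
              ring
          _ = _ := by
              rw [lintegral_add_left (by fun_prop), lintegral_const_mul _ (by fun_prop)]
      have h7 : Lt (z, ζ) ≤ ‖ψ ζ‖ₑ * ‖v (c + ζ • z)‖ₑ + M * (J ζ * w (c + ζ • z)) := by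
        rw [hLt]
        simp only
        by_cases hζ : ζ ∈ T
        · have hJl : J ζ = 1 := by rw [hJ, indicator_of_mem hζ]
          rw [hJl, one_mul]
          have h5 : a (z, ζ) ≤ ‖v (c + ζ • z)‖ₑ + w (c + ζ • z) := by
            have h6 : g (c + ζ • z) = v (c + ζ • z) - (v (c + ζ • z) - g (c + ζ • z)) := by abel
            calc a (z, ζ) = ‖v (c + ζ • z) - (v (c + ζ • z) - g (c + ζ • z))‖ₑ := by
                  rw [← h6]
              _ ≤ ‖v (c + ζ • z)‖ₑ + ‖v (c + ζ • z) - g (c + ζ • z)‖ₑ := enorm_sub_le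
              _ ≤ _ := add_le_add le_rfl le_self_add
          calc ‖ψ ζ‖ₑ * a (z, ζ) ≤ ‖ψ ζ‖ₑ * (‖v (c + ζ • z)‖ₑ + w (c + ζ • z)) :=
                mul_le_mul' le_rfl h5
            _ = ‖ψ ζ‖ₑ * ‖v (c + ζ • z)‖ₑ + ‖ψ ζ‖ₑ * w (c + ζ • z) := by ring
            _ ≤ _ := add_le_add le_rfl (mul_le_mul' (hM1 ζ) le_rfl)
        · rw [hψ0 ζ hζ]
          simp
      calc Lt (z, ζ) ≤ ‖ψ ζ‖ₑ * ‖v (c + ζ • z)‖ₑ + M * (J ζ * w (c + ζ • z)) := h7
        _ ≤ (Rt (z, ζ) + 3 * M * ∫⁻ l, ‖ζ - l‖ₑ⁻¹ * (J l * w (c + l • z))) +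
            3 * M * (J ζ * w (c + ζ • z)) := by
            refine add_le_add hs2 (mul_le_mul' ?_ le_rfl)
            calc M = 1 * M := (one_mul _).symm
              _ ≤ 3 * M := mul_le_mul' (by norm_num) le_rfl
        _ = _ := by ring
    -- integrate
    have hFm : Measurable fun p : Cn n × ℂ => J p.2 * w (c + p.2 • p.1) := by fun_prop
    have hInt : ∀ z ∈ Ann n, ∫⁻ ζ in closedBall 0 ρ, (Lt (z, ζ) - Rt (z, ζ)) ≤
        3 * M * ((Cρ + 1) * ∫⁻ l, J l * w (c + l • z)) := by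
      intro z hz
      have hF1 : Measurable fun l : ℂ => J l * w (c + l • z) := by fun_prop
      calc ∫⁻ ζ in closedBall 0 ρ, (Lt (z, ζ) - Rt (z, ζ))
          ≤ ∫⁻ ζ in closedBall 0 ρ,
            3 * M * ((∫⁻ l, ‖ζ - l‖ₑ⁻¹ * (J l * w (c + l • z))) + J ζ * w (c + ζ • z)) :=
            lintegral_mono fun ζ => hpt z hz ζ
        _ = 3 * M * ((∫⁻ ζ in closedBall 0 ρ, ∫⁻ l, ‖ζ - l‖ₑ⁻¹ * (J l * w (c + l • z))) +
            ∫⁻ ζ in closedBall 0 ρ, J ζ * w (c + ζ • z)) := by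
            have hm3 : Measurable fun ζ : ℂ => ∫⁻ l, ‖ζ - l‖ₑ⁻¹ * (J l * w (c + l • z)) := by
              have : Measurable fun q : ℂ × ℂ => ‖q.1 - q.2‖ₑ⁻¹ * (J q.2 * w (c + q.2 • z)) := by
                fun_prop
              exact this.lintegral_prod_right'
            rw [lintegral_const_mul _ (by fun_prop), lintegral_add_left hm3]
        _ ≤ 3 * M * (Cρ * (∫⁻ l, J l * w (c + l • z)) + ∫⁻ l, J l * w (c + l • z)) := by
            refine mul_le_mul' le_rfl (add_le_add ?_ ?_)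
            · rw [lintegral_lintegral_swap (by fun_prop), ← lintegral_const_mul _ hF1]
              refine lintegral_mono fun l => ?_
              rw [lintegral_mul_const _ (by fun_prop)]
              exact mul_le_mul' (hline l) le_rfl
            · exact lintegral_mono' Measure.restrict_le_self le_rfl
        _ = _ := by ring
    calc ∫⁻ z in Ann n, ∫⁻ ζ in closedBall 0 ρ, (Lt (z, ζ) - Rt (z, ζ))
        ≤ ∫⁻ z in Ann n, 3 * M * ((Cρ + 1) * ∫⁻ l, J l * w (c + l • z)) :=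
          setLIntegral_mono' measurableSet_Ann fun z hz => hInt z hz
      _ = 3 * M * ((Cρ + 1) * ∫⁻ z in Ann n, ∫⁻ l, J l * w (c + l • z)) := by
          have hm4 : Measurable fun z : Cn n => ∫⁻ l, J l * w (c + l • z) :=
            hFm.lintegral_prod_right'
          rw [lintegral_const_mul _ (by fun_prop), lintegral_const_mul _ hm4]
      _ ≤ 3 * M * ((Cρ + 1) * (K * (η + η))) := by
          refine mul_le_mul' le_rfl (mul_le_mul' le_rfl ?_)
          rw [pull c J hJm w hwm, hK, ← lintegral_mul_const _ (by fun_prop)]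
          refine lintegral_mono fun l => ?_
          rw [mul_assoc]
          refine mul_le_mul' le_rfl (mul_le_mul' le_rfl ?_)
          exact (lintegral_mono' Measure.restrict_le_self le_rfl).trans hwi
  -- conclusion
  have hzero : ∫⁻ z in Ann n, ∫⁻ ζ in closedBall 0 ρ, (Lt (z, ζ) - Rt (z, ζ)) = 0 := by
    by_contra hne
    set I₀ := ∫⁻ z in Ann n, ∫⁻ ζ in closedBall 0 ρ, (Lt (z, ζ) - Rt (z, ζ)) with hI₀
    have hpos : 0 < I₀ := pos_iff_ne_zero.2 hne
    have ht : Tendsto (fun η : ℝ≥0∞ => 3 * M * ((Cρ + 1) * (K * (η + η)))) (𝓝[>] 0) (𝓝 0) := by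
      have h1 : Tendsto (fun η : ℝ≥0∞ => (3 * M * ((Cρ + 1) * (K * 2))) * η) (𝓝 0)
          (𝓝 ((3 * M * ((Cρ + 1) * (K * 2))) * 0)) := by
        refine ENNReal.Tendsto.const_mul tendsto_id (Or.inr ?_)
        refine ENNReal.mul_ne_top (ENNReal.mul_ne_top (by norm_num) hM) ?_
        refine ENNReal.mul_ne_top (ENNReal.add_ne_top.2 ⟨hCρ, ENNReal.one_ne_top⟩) ?_
        exact ENNReal.mul_ne_top hKt (by norm_num)
      rw [mul_zero] at h1
      have h2 := h1.mono_left (nhdsWithin_le_nhds (s := Ioi (0 : ℝ≥0∞)))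
      refine h2.congr fun η => ?_
      ring
    have h3 : I₀ ≤ 0 := by
      refine ge_of_tendsto ht ?_
      filter_upwards [self_mem_nhdsWithin] with η hη
      exact hmain η hη
    exact absurd hpos (not_lt.2 h3)
  have hm5 : Measurable fun p : Cn n × ℂ => Lt p - Rt p := hLtm.sub hRtm
  rw [lintegral_eq_zero_iff (hm5.lintegral_prod_right' (ν := volume.restrict (closedBall 0 ρ)))]
    at hzero
  filter_upwards [hzero] with z hz
  rw [Pi.zero_apply, lintegral_eq_zero_iff (f := fun ζ => Lt (z, ζ) - Rt (z, ζ))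
    (hm5.comp measurable_prodMk_left)] at hz
  have hz' := (ae_restrict_iff' measurableSet_closedBall).1 hz
  filter_upwards [hz'] with ζ hζ
  by_cases hζT : ζ ∈ closedBall (0 : ℂ) ρ
  · have h6 := hζ hζT
    exact tsub_eq_zero_iff_le.1 h6
  · rw [hψ0 ζ (fun h => hζT h.1)]
    simp

end Pool.Agent.R234.UC
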