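import Mathlib
import Pool.Agent.R234.UC.M3
import Pool.Agent.R234.UC.M4

/-! Integrability along almost every line. -/

set_option autoImplicit false

open MeasureTheory Metric Set Filter Topology Complex
open scoped ENNReal

namespace Pool.Agent.R234.UC

variable {n : ℕ}

theorem pull2 (c : Cn n) (J : ℂ → ℝ≥0∞) (hJ : Measurable J) (w : Cn n → ℝ≥0∞)
    (hw : Measurable w) :
    ∫⁻ z in Ann n, ∫⁻ l, J l * w (c + l • z) =
      ∫⁻ y, w y * ∫⁻ l in {l : ℂ | ‖l‖ ≤ ‖y - c‖ ∧ ‖y - c‖ ≤ 2 * ‖l‖},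
        J l * (‖l‖ₑ ^ (2 * n))⁻¹ := by
  rw [pull c J hJ w hw]
  set S : Set (ℂ × Cn n) := {p | ‖p.1‖ ≤ ‖p.2 - c‖ ∧ ‖p.2 - c‖ ≤ 2 * ‖p.1‖} with hS
  have hSm : MeasurableSet S := by
    have h1 : MeasurableSet {p : ℂ × Cn n | ‖p.1‖ ≤ ‖p.2 - c‖} :=
      measurableSet_le (by fun_prop) (by fun_prop)
    have h2 : MeasurableSet {p : ℂ × Cn n | ‖p.2 - c‖ ≤ 2 * ‖p.1‖} :=
      measurableSet_le (by fun_prop) (by fun_prop)
    exact h1.inter h2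
  set F : ℂ × Cn n → ℝ≥0∞ := S.indicator (fun p => J p.1 * (‖p.1‖ₑ ^ (2 * n))⁻¹ * w p.2) with hF
  have hFm : Measurable F := Measurable.indicator (by fun_prop) hSm
  have e1 : ∫⁻ l, J l * ((‖l‖ₑ ^ (2 * n))⁻¹ *
        ∫⁻ y in {y | ‖l‖ ≤ ‖y - c‖ ∧ ‖y - c‖ ≤ 2 * ‖l‖}, w y) = ∫⁻ l, ∫⁻ y, F (l, y) := by
    refine lintegral_congr fun l => ?_
    have hSm' : MeasurableSet {y : Cn n | ‖l‖ ≤ ‖y - c‖ ∧ ‖y - c‖ ≤ 2 * ‖l‖} :=
      measurable_prodMk_left hSm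
    rw [← mul_assoc, ← lintegral_const_mul _ hw, ← lintegral_indicator hSm']
    rfl
  have e2 : ∫⁻ y, w y * ∫⁻ l in {l : ℂ | ‖l‖ ≤ ‖y - c‖ ∧ ‖y - c‖ ≤ 2 * ‖l‖},
        J l * (‖l‖ₑ ^ (2 * n))⁻¹ = ∫⁻ y, ∫⁻ l, F (l, y) := by
    refine lintegral_congr fun y => ?_
    have hSm' : MeasurableSet {l : ℂ | ‖l‖ ≤ ‖y - c‖ ∧ ‖y - c‖ ≤ 2 * ‖l‖} :=
      measurable_prodMk_right hSm
    rw [← lintegral_const_mul _ (by fun_prop), ← lintegral_indicator hSm']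
    refine lintegral_congr fun l => ?_
    by_cases h : l ∈ {l : ℂ | ‖l‖ ≤ ‖y - c‖ ∧ ‖y - c‖ ≤ 2 * ‖l‖}
    · rw [indicator_of_mem h, hF, indicator_of_mem (show (l, y) ∈ S from h)]
      ring
    · rw [indicator_of_notMem h, hF, indicator_of_notMem (show (l, y) ∉ S from h)]
  rw [e1, e2]
  exact lintegral_lintegral_swap hFm.aemeasurable

/-- finiteness on annuli -/
theorem fin_annulus (c : Cn n) (w : Cn n → ℝ≥0∞) (hw : Measurable w) (hwi : ∫⁻ y, w y ≠ ∞)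
    (ρ δ : ℝ) (hδ : 0 < δ) :
    ∫⁻ z in Ann n, ∫⁻ l in closedBall (0 : ℂ) ρ \ ball 0 δ, w (c + l • z) ≠ ∞ := by
  set T : Set ℂ := closedBall 0 ρ \ ball 0 δ with hT
  have hTm : MeasurableSet T := measurableSet_closedBall.diff measurableSet_ball
  have e1 : ∫⁻ z in Ann n, ∫⁻ l in T, w (c + l • z) =
      ∫⁻ z in Ann n, ∫⁻ l, T.indicator (fun _ => 1) l * w (c + l • z) := by
    refine lintegral_congr fun z => ?_
    rw [← lintegral_indicator hTm]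
    refine lintegral_congr fun l => ?_
    by_cases h : l ∈ T
    · rw [indicator_of_mem h, indicator_of_mem h, one_mul]
    · rw [indicator_of_notMem h, indicator_of_notMem h, zero_mul]
  rw [e1, pull c _ (measurable_const.indicator hTm) w hw]
  have h1 : ∫⁻ l, T.indicator (fun _ => 1) l * ((‖l‖ₑ ^ (2 * n))⁻¹ *
        ∫⁻ y in {y | ‖l‖ ≤ ‖y - c‖ ∧ ‖y - c‖ ≤ 2 * ‖l‖}, w y) ≤
      ((ENNReal.ofReal δ ^ (2 * n))⁻¹ * ∫⁻ y, w y) * volume (closedBall (0 : ℂ) ρ) := by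
    rw [← setLIntegral_const, ← lintegral_indicator measurableSet_closedBall]
    refine lintegral_mono fun l => ?_
    by_cases hl : l ∈ T
    · rw [indicator_of_mem hl, indicator_of_mem hl.1, one_mul]
      refine mul_le_mul' (ENNReal.inv_le_inv.2 (pow_le_pow_left' ?_ _))
        (lintegral_mono' Measure.restrict_le_self le_rfl)
      have := hl.2
      rw [mem_ball_zero_iff, not_lt] at this
      rw [← ofReal_norm]
      exact ENNReal.ofReal_le_ofReal this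
    · rw [indicator_of_notMem hl, zero_mul]
      exact zero_le
  refine ne_top_of_le_ne_top (ENNReal.mul_ne_top (ENNReal.mul_ne_top ?_ hwi)
    measure_closedBall_lt_top.ne) h1
  rw [Ne, ENNReal.inv_eq_top]
  exact pow_ne_zero _ (by rw [Ne, ENNReal.ofReal_eq_zero, not_le]; exact hδ)

/-- finiteness with an arbitrarily singular weight, from vanishing of infinite order -/
theorem fin_center (c : Cn n) (w : Cn n → ℝ≥0∞) (hw : Measurable w) (M : ℕ)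
    (r₀ : ℝ)
    (hv : ∀ r, 0 < r → r ≤ r₀ → ∫⁻ y in closedBall c r, w y ≤ ENNReal.ofReal (r ^ (M + 2 * n))) :
    ∫⁻ z in Ann n, ∫⁻ l in closedBall (0 : ℂ) (r₀ / 2), (‖l‖ₑ ^ M)⁻¹ * w (c + l • z) ≠ ∞ := by
  set T : Set ℂ := closedBall 0 (r₀ / 2) with hT
  have hTm : MeasurableSet T := measurableSet_closedBall
  have e1 : ∫⁻ z in Ann n, ∫⁻ l in T, (‖l‖ₑ ^ M)⁻¹ * w (c + l • z) =
      ∫⁻ z in Ann n, ∫⁻ l, T.indicator (fun l => (‖l‖ₑ ^ M)⁻¹) l * w (c + l • z) := by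
    refine lintegral_congr fun z => ?_
    rw [← lintegral_indicator hTm]
    refine lintegral_congr fun l => ?_
    by_cases h : l ∈ T
    · rw [indicator_of_mem h, indicator_of_mem h]
    · rw [indicator_of_notMem h, indicator_of_notMem h, zero_mul]
  rw [e1, pull c _ (Measurable.indicator (by fun_prop) hTm) w hw]
  have h1 : ∫⁻ l, T.indicator (fun l => (‖l‖ₑ ^ M)⁻¹) l * ((‖l‖ₑ ^ (2 * n))⁻¹ *
        ∫⁻ y in {y | ‖l‖ ≤ ‖y - c‖ ∧ ‖y - c‖ ≤ 2 * ‖l‖}, w y) ≤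
      (2 ^ (M + 2 * n)) * volume T := by
    rw [← setLIntegral_const, ← lintegral_indicator hTm]
    refine lintegral_mono_ae ?_
    filter_upwards [ae_ne_zero] with l hl0
    by_cases hl : l ∈ T
    · rw [indicator_of_mem hl, indicator_of_mem hl]
      have hl1 : ‖l‖ ≤ r₀ / 2 := by
        rw [hT, mem_closedBall_zero_iff] at hl
        exact hl
      have hlpos : 0 < ‖l‖ := norm_pos_iff.2 hl0
      have h2 : ∫⁻ y in {y | ‖l‖ ≤ ‖y - c‖ ∧ ‖y - c‖ ≤ 2 * ‖l‖}, w y ≤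
          ENNReal.ofReal ((2 * ‖l‖) ^ (M + 2 * n)) := by
        refine le_trans ?_ (hv (2 * ‖l‖) (by positivity) (by linarith))
        refine lintegral_mono_set fun y hy => ?_
        rw [mem_closedBall, dist_eq_norm]
        exact hy.2
      have h3 : ENNReal.ofReal ((2 * ‖l‖) ^ (M + 2 * n)) =
          2 ^ (M + 2 * n) * (‖l‖ₑ ^ M * ‖l‖ₑ ^ (2 * n)) := by
        rw [mul_pow, ENNReal.ofReal_mul (by positivity), ENNReal.ofReal_pow (by norm_num),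
          ENNReal.ofReal_pow hlpos.le, ofReal_norm, ENNReal.ofReal_ofNat, pow_add (‖l‖ₑ)]
      rw [h3] at h2
      have hne : ‖l‖ₑ ≠ 0 := enorm_ne_zero.2 hl0
      calc (‖l‖ₑ ^ M)⁻¹ * ((‖l‖ₑ ^ (2 * n))⁻¹ *
            ∫⁻ y in {y | ‖l‖ ≤ ‖y - c‖ ∧ ‖y - c‖ ≤ 2 * ‖l‖}, w y)
          ≤ (‖l‖ₑ ^ M)⁻¹ * ((‖l‖ₑ ^ (2 * n))⁻¹ *
            (2 ^ (M + 2 * n) * (‖l‖ₑ ^ M * ‖l‖ₑ ^ (2 * n)))) :=
            mul_le_mul' le_rfl (mul_le_mul' le_rfl h2)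
        _ = 2 ^ (M + 2 * n) * ((‖l‖ₑ ^ M)⁻¹ * ‖l‖ₑ ^ M) * ((‖l‖ₑ ^ (2 * n))⁻¹ *
            ‖l‖ₑ ^ (2 * n)) := by ring
        _ = 2 ^ (M + 2 * n) := by
            rw [ENNReal.inv_mul_cancel (pow_ne_zero _ hne) (ENNReal.pow_ne_top enorm_ne_top),
              ENNReal.inv_mul_cancel (pow_ne_zero _ hne) (ENNReal.pow_ne_top enorm_ne_top),
              mul_one, mul_one]
        _ ≤ _ := le_rfl
    · rw [indicator_of_notMem hl, zero_mul]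
      exact zero_le
  refine ne_top_of_le_ne_top (ENNReal.mul_ne_top (by simp) ?_) h1
  exact measure_closedBall_lt_top.ne

/-- the potential on almost every line -/
theorem fin_pot (c : Cn n) (W : Cn n → ℝ≥0∞) (hW : Measurable W)
    (hWi : ∫⁻ y, W y ^ (2 * n : ℝ) ≠ ∞) (ρ : ℝ) (hn : 1 ≤ n) :
    ∫⁻ z in Ann n, ∫⁻ l in closedBall (0 : ℂ) ρ,
      (‖z‖ₑ * W (c + l • z)) ^ (2 * n : ℝ) * ‖l‖ₑ ^ ((2 * n : ℝ) - 2) ≠ ∞ := by
  set T : Set ℂ := closedBall 0 ρ with hT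
  have hTm : MeasurableSet T := measurableSet_closedBall
  have hn0 : (0 : ℝ) ≤ 2 * n := by positivity
  have h1 : ∫⁻ z in Ann n, ∫⁻ l in T,
      (‖z‖ₑ * W (c + l • z)) ^ (2 * n : ℝ) * ‖l‖ₑ ^ ((2 * n : ℝ) - 2) ≤
      ∫⁻ z in Ann n, ∫⁻ l : ℂ, (2 ^ (2 * n : ℝ) * ‖l‖ₑ ^ ((2 * n : ℝ) - 2)) *
        (fun y => W y ^ (2 * n : ℝ)) (c + l • z) := by
    refine setLIntegral_mono' measurableSet_Ann fun z hz => ?_
    refine lintegral_mono' Measure.restrict_le_self fun l => ?_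
    rw [ENNReal.mul_rpow_of_nonneg _ _ hn0]
    have h2 : ‖z‖ₑ ^ (2 * n : ℝ) ≤ 2 ^ (2 * n : ℝ) := by
      refine ENNReal.rpow_le_rpow ?_ hn0
      rw [← ofReal_norm]
      calc ENNReal.ofReal ‖z‖ ≤ ENNReal.ofReal 2 := ENNReal.ofReal_le_ofReal hz.2
        _ = 2 := ENNReal.ofReal_ofNat 2
    calc ‖z‖ₑ ^ (2 * n : ℝ) * W (c + l • z) ^ (2 * n : ℝ) * ‖l‖ₑ ^ ((2 * n : ℝ) - 2)
        ≤ 2 ^ (2 * n : ℝ) * W (c + l • z) ^ (2 * n : ℝ) * ‖l‖ₑ ^ ((2 * n : ℝ) - 2) :=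
          mul_le_mul' (mul_le_mul' h2 le_rfl) le_rfl
      _ = _ := by ring
  refine ne_top_of_le_ne_top ?_ h1
  have hp2 := pull2 c (fun l : ℂ => 2 ^ (2 * n : ℝ) * ‖l‖ₑ ^ ((2 * n : ℝ) - 2)) (by fun_prop)
    (fun y => W y ^ (2 * n : ℝ)) (by fun_prop)
  refine ne_of_eq_of_ne hp2 ?_
  have h3 : ∀ y : Cn n, ∫⁻ l in {l : ℂ | ‖l‖ ≤ ‖y - c‖ ∧ ‖y - c‖ ≤ 2 * ‖l‖},
      2 ^ (2 * n : ℝ) * ‖l‖ₑ ^ ((2 * n : ℝ) - 2) * (‖l‖ₑ ^ (2 * n))⁻¹ ≤
        2 ^ (2 * n : ℝ) * (4 * ENNReal.ofReal Real.pi) := by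
    intro y
    rcases eq_or_ne y c with rfl | hy
    · have : {l : ℂ | ‖l‖ ≤ ‖y - y‖ ∧ ‖y - y‖ ≤ 2 * ‖l‖} ⊆ {0} := by
        intro l hl
        have := hl.1
        rw [sub_self, norm_zero] at this
        exact norm_le_zero_iff.1 this
      refine (lintegral_mono_set this).trans ?_
      rw [setLIntegral_measure_zero _ _ (by simp)]
      exact zero_le
    have ht : 0 < ‖y - c‖ := norm_pos_iff.2 (sub_ne_zero.2 hy)
    set t := ‖y - c‖ with htdef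
    have hsub : {l : ℂ | ‖l‖ ≤ t ∧ t ≤ 2 * ‖l‖} ⊆ closedBall 0 t := by
      intro l hl
      rw [mem_closedBall_zero_iff]
      exact hl.1
    have hmS : MeasurableSet {l : ℂ | ‖l‖ ≤ t ∧ t ≤ 2 * ‖l‖} := by
      have h1 : MeasurableSet {l : ℂ | ‖l‖ ≤ t} := measurableSet_le (by fun_prop) (by fun_prop)
      have h2 : MeasurableSet {l : ℂ | t ≤ 2 * ‖l‖} :=
        measurableSet_le (by fun_prop) (by fun_prop)
      exact h1.inter h2
    calc ∫⁻ l in {l : ℂ | ‖l‖ ≤ t ∧ t ≤ 2 * ‖l‖},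
          2 ^ (2 * n : ℝ) * ‖l‖ₑ ^ ((2 * n : ℝ) - 2) * (‖l‖ₑ ^ (2 * n))⁻¹
        ≤ ∫⁻ l in {l : ℂ | ‖l‖ ≤ t ∧ t ≤ 2 * ‖l‖},
          2 ^ (2 * n : ℝ) * (4 * ENNReal.ofReal ((t ^ 2)⁻¹)) := by
          refine setLIntegral_mono' hmS fun l hl => ?_
          have hl2 : t / 2 ≤ ‖l‖ := by
            have := hl.2
            linarith
          have hl0 : 0 < ‖l‖ := by linarith
          have hlne : l ≠ 0 := norm_pos_iff.1 hl0
          have e1 : ‖l‖ₑ ^ ((2 * n : ℝ) - 2) * (‖l‖ₑ ^ (2 * n))⁻¹ =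
              ENNReal.ofReal ((‖l‖ ^ 2)⁻¹) := by
            have hne : ‖l‖ₑ ≠ 0 := enorm_ne_zero.2 hlne
            rw [← ENNReal.rpow_natCast, ← ENNReal.rpow_neg,
              ← ENNReal.rpow_add _ _ hne enorm_ne_top]
            have e2 : (2 * n : ℝ) - 2 + -((2 * n : ℕ) : ℝ) = -(2 : ℝ) := by
              push_cast
              ring
            rw [e2, ← ofReal_norm, ENNReal.ofReal_rpow_of_pos hl0, Real.rpow_neg hl0.le]
            norm_cast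
          rw [mul_assoc, e1]
          refine mul_le_mul' le_rfl ?_
          rw [← ENNReal.ofReal_ofNat 4, ← ENNReal.ofReal_mul (by norm_num)]
          refine ENNReal.ofReal_le_ofReal ?_
          rw [inv_le_comm₀ (by positivity) (by positivity), mul_inv, inv_inv]
          nlinarith
      _ ≤ ∫⁻ l in closedBall (0 : ℂ) t, 2 ^ (2 * n : ℝ) * (4 * ENNReal.ofReal ((t ^ 2)⁻¹)) :=
          lintegral_mono_set hsub
      _ = 2 ^ (2 * n : ℝ) * (4 * ENNReal.ofReal ((t ^ 2)⁻¹)) * volume (closedBall (0 : ℂ) t) :=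
          setLIntegral_const _ _
      _ = 2 ^ (2 * n : ℝ) * (4 * ENNReal.ofReal Real.pi) := by
          rw [Complex.volume_closedBall, mul_assoc, mul_assoc]
          congr 2
          have e3 : (NNReal.pi : ℝ≥0∞) = ENNReal.ofReal Real.pi := by
            rw [ENNReal.ofReal]
            congr 1
            ext
            rw [Real.coe_toNNReal _ Real.pi_pos.le]
            rfl
          rw [e3, ← ENNReal.ofReal_pow ht.le, ← mul_assoc, ← ENNReal.ofReal_mul (by positivity),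
            inv_mul_cancel₀ (by positivity), ENNReal.ofReal_one, one_mul]
  have h4 : ∫⁻ y, (fun y => W y ^ (2 * n : ℝ)) y *
      ∫⁻ l in {l : ℂ | ‖l‖ ≤ ‖y - c‖ ∧ ‖y - c‖ ≤ 2 * ‖l‖},
        2 ^ (2 * n : ℝ) * ‖l‖ₑ ^ ((2 * n : ℝ) - 2) * (‖l‖ₑ ^ (2 * n))⁻¹ ≤
      (∫⁻ y, W y ^ (2 * n : ℝ)) * (2 ^ (2 * n : ℝ) * (4 * ENNReal.ofReal Real.pi)) := by
    rw [← lintegral_mul_const _ (by fun_prop)]
    exact lintegral_mono fun y => mul_le_mul' le_rfl (h3 y)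
  refine ne_top_of_le_ne_top (ENNReal.mul_ne_top hWi ?_) h4
  refine ENNReal.mul_ne_top ?_ (ENNReal.mul_ne_top (by norm_num) ENNReal.ofReal_ne_top)
  exact ENNReal.rpow_ne_top_of_nonneg hn0 (by norm_num)

/-- if a function vanishes along almost every line near the centre, it vanishes near the
centre -/
theorem zero_of_lines (c : Cn n) (w : Cn n → ℝ≥0∞) (hw : Measurable w) (ρ : ℝ)
    (h : ∀ᵐ z ∂(volume.restrict (Ann n)), ∀ᵐ l : ℂ, ‖l‖ < ρ → w (c + l • z) = 0) :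
    ∀ᵐ y, y ∈ ball c ρ → y ≠ c → w y = 0 := by
  set J : ℂ → ℝ≥0∞ := (ball (0 : ℂ) ρ).indicator (fun _ => 1) with hJ
  have hJm : Measurable J := measurable_const.indicator measurableSet_ball
  have h1 : ∫⁻ z in Ann n, ∫⁻ l, J l * w (c + l • z) = 0 := by
    rw [lintegral_eq_zero_iff' ?_]
    · filter_upwards [h] with z hz
      rw [Pi.zero_apply, lintegral_eq_zero_iff (by fun_prop)]
      filter_upwards [hz] with l hl
      rw [Pi.zero_apply]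
      by_cases h2 : l ∈ ball (0 : ℂ) ρ
      · rw [hl (mem_ball_zero_iff.1 h2), mul_zero]
      · rw [hJ, indicator_of_notMem h2, zero_mul]
    · have : Measurable fun p : Cn n × ℂ => J p.2 * w (c + p.2 • p.1) := by fun_prop
      exact this.lintegral_prod_right'.aemeasurable
  rw [pull2 c J hJm w hw] at h1
  set S : Set (Cn n × ℂ) := {p | ‖p.2‖ ≤ ‖p.1 - c‖ ∧ ‖p.1 - c‖ ≤ 2 * ‖p.2‖} with hS
  have hSm : MeasurableSet S := by
    have h1 : MeasurableSet {p : Cn n × ℂ | ‖p.2‖ ≤ ‖p.1 - c‖} :=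
      measurableSet_le (by fun_prop) (by fun_prop)
    have h2 : MeasurableSet {p : Cn n × ℂ | ‖p.1 - c‖ ≤ 2 * ‖p.2‖} :=
      measurableSet_le (by fun_prop) (by fun_prop)
    exact h1.inter h2
  have hκ : ∀ y, ∫⁻ l in {l : ℂ | ‖l‖ ≤ ‖y - c‖ ∧ ‖y - c‖ ≤ 2 * ‖l‖},
      J l * (‖l‖ₑ ^ (2 * n))⁻¹ =
      ∫⁻ l, S.indicator (fun p => J p.2 * (‖p.2‖ₑ ^ (2 * n))⁻¹) (y, l) := by
    intro y
    have hSm' : MeasurableSet {l : ℂ | ‖l‖ ≤ ‖y - c‖ ∧ ‖y - c‖ ≤ 2 * ‖l‖} :=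
      measurable_prodMk_left hSm
    rw [← lintegral_indicator hSm']
    rfl
  simp_rw [hκ] at h1
  have hFm : Measurable (S.indicator (fun p : Cn n × ℂ => J p.2 * (‖p.2‖ₑ ^ (2 * n))⁻¹)) :=
    Measurable.indicator (by fun_prop) hSm
  rw [lintegral_eq_zero_iff (f := fun y => w y * ∫⁻ l : ℂ,
    S.indicator (fun p => J p.2 * (‖p.2‖ₑ ^ (2 * n))⁻¹) (y, l))
    (hw.mul hFm.lintegral_prod_right')] at h1
  filter_upwards [h1] with y hy hyρ hyc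
  rw [Pi.zero_apply, mul_eq_zero] at hy
  rcases hy with hy | hy
  · exact hy
  exfalso
  rw [lintegral_eq_zero_iff (f := fun l : ℂ =>
    S.indicator (fun p => J p.2 * (‖p.2‖ₑ ^ (2 * n))⁻¹) (y, l))
    (hFm.comp measurable_prodMk_left)] at hy
  have hd := Measure.dense_of_ae hy
  have ht : 0 < ‖y - c‖ := norm_pos_iff.2 (sub_ne_zero.2 hyc)
  have hopen : IsOpen {l : ℂ | ‖y - c‖ / 2 < ‖l‖ ∧ ‖l‖ < ‖y - c‖} :=
    (isOpen_lt continuous_const continuous_norm).inter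
      (isOpen_lt continuous_norm continuous_const)
  have hne : {l : ℂ | ‖y - c‖ / 2 < ‖l‖ ∧ ‖l‖ < ‖y - c‖}.Nonempty := by
    refine ⟨((3 / 4 * ‖y - c‖ : ℝ) : ℂ), ?_⟩
    have : ‖((3 / 4 * ‖y - c‖ : ℝ) : ℂ)‖ = 3 / 4 * ‖y - c‖ := by
      rw [Complex.norm_real, Real.norm_of_nonneg (by positivity)]
    constructor
    · rw [this]; linarith
    · rw [this]; linarith
  obtain ⟨l, hl1, hl2⟩ := hd.exists_mem_open hopen hne
  have hl3 : S.indicator (fun p : Cn n × ℂ => J p.2 * (‖p.2‖ₑ ^ (2 * n))⁻¹) (y, l) = 0 := hl1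
  have hmem : (y, l) ∈ S := ⟨hl2.2.le, by linarith [hl2.1]⟩
  rw [indicator_of_mem hmem] at hl3
  have hlb : l ∈ ball (0 : ℂ) ρ := by
    rw [mem_ball_zero_iff]
    rw [mem_ball, dist_eq_norm] at hyρ
    linarith [hl2.2]
  simp only at hl3
  rw [hJ, indicator_of_mem hlb, one_mul, ENNReal.inv_eq_zero] at hl3
  exact ENNReal.pow_ne_top enorm_ne_top hl3

end Pool.Agent.R234.UC
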