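import Mathlib
import Pool.Agent.R234.UC.M6
import Pool.Agent.R234.UC.M8
import Pool.Agent.R234.UC.M9

/-! The local theorem. -/

set_option autoImplicit false

open MeasureTheory Metric Set Filter Topology Complex
open scoped ENNReal

namespace Pool.Agent.R234.UC

variable {n m : ℕ}

theorem oneD_iter (q : ℝ) (hq : 2 < q) (a e h : ℂ → ℝ≥0∞) (ha : Measurable a)
    (he : Measurable e) (hh : Measurable h) (heh : ∀ z, e z ≤ h z * a z) (ρ : ℝ) (hρ : 0 < ρ)
    (hpot : ∫⁻ l in closedBall 0 ρ, h l ^ q * ‖l‖ₑ ^ (q - 2) ≠ ∞)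
    (hA : ∀ j : ℕ, ∫⁻ l in closedBall 0 ρ \ ball 0 ((1 / 2) ^ j), a l ≠ ∞)
    (hE : ∀ j : ℕ, ∫⁻ l in closedBall 0 ρ \ ball 0 ((1 / 2) ^ j), e l ≠ ∞)
    (hC : ∀ M : ℕ, ∃ r : ℝ, 0 < r ∧ ∫⁻ l in closedBall 0 r, (‖l‖ₑ ^ M)⁻¹ * a l ≠ ∞)
    (hin : ∀ N k K i : ℕ, i + 2 ≤ K → ∀ᵐ z,
      ‖psi N ((1 / 2) ^ k) ((i + 1) * ρ / K) ((i + 2) * ρ / K) z‖ₑ * a z ≤
        ∫⁻ l, ‖z - l‖ₑ⁻¹ *
          (‖psi N ((1 / 2) ^ k) ((i + 1) * ρ / K) ((i + 2) * ρ / K) l‖ₑ * e l +
          ‖db (fderiv ℝ (psi N ((1 / 2) ^ k) ((i + 1) * ρ / K) ((i + 2) * ρ / K)) l)‖ₑ * a l)) :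
    ∀ᵐ l, ‖l‖ < ρ / 2 → a l = 0 := by
  obtain ⟨ε, hε, h1D⟩ := oneD q hq
  -- vanishing
  have hvan : ∀ M : ℕ, Tendsto (fun k : ℕ => (2 : ℝ≥0∞) ^ (M * k) *
      ∫⁻ z in closedBall 0 ((1 / 2) ^ k), a z) atTop (𝓝 0) := by
    intro M
    obtain ⟨r, hr, hI⟩ := hC (M + 1)
    set I := ∫⁻ l in closedBall 0 r, (‖l‖ₑ ^ (M + 1))⁻¹ * a l with hIdef
    have hle : ∀ᶠ k : ℕ in atTop, (2 : ℝ≥0∞) ^ (M * k) *
        ∫⁻ z in closedBall 0 ((1 / 2) ^ k), a z ≤ (2⁻¹ : ℝ≥0∞) ^ k * I := by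
      have h1 : ∀ᶠ k : ℕ in atTop, (1 / 2 : ℝ) ^ k < r :=
        (tendsto_pow_atTop_nhds_zero_of_lt_one (by norm_num) (by norm_num)).eventually
          (gt_mem_nhds hr)
      filter_upwards [h1] with k hk
      have h2 : ∫⁻ z in closedBall 0 ((1 / 2) ^ k), a z ≤
          (2⁻¹ : ℝ≥0∞) ^ (k * (M + 1)) * I := by
        rw [hIdef, ← lintegral_const_mul _ (by fun_prop)]
        calc ∫⁻ z in closedBall 0 ((1 / 2) ^ k), a z
            ≤ ∫⁻ z in closedBall 0 ((1 / 2) ^ k),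
              (2⁻¹ : ℝ≥0∞) ^ (k * (M + 1)) * ((‖z‖ₑ ^ (M + 1))⁻¹ * a z) := by
              refine lintegral_mono_ae ?_
              rw [ae_restrict_iff' measurableSet_closedBall]
              filter_upwards [ae_ne_zero] with z hz0 hz
              rw [mem_closedBall_zero_iff] at hz
              have h3 : ‖z‖ₑ ≤ (2⁻¹ : ℝ≥0∞) ^ k := by
                rw [← ofReal_norm]
                refine (ENNReal.ofReal_le_ofReal hz).trans (le_of_eq ?_)
                rw [ENNReal.ofReal_pow (by norm_num), one_div,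
                  ENNReal.ofReal_inv_of_pos (by norm_num), ENNReal.ofReal_ofNat]
              have hne : ‖z‖ₑ ≠ 0 := enorm_ne_zero.2 hz0
              calc a z = ‖z‖ₑ ^ (M + 1) * (‖z‖ₑ ^ (M + 1))⁻¹ * a z := by
                    rw [ENNReal.mul_inv_cancel (pow_ne_zero _ hne)
                      (ENNReal.pow_ne_top enorm_ne_top), one_mul]
                _ = ‖z‖ₑ ^ (M + 1) * ((‖z‖ₑ ^ (M + 1))⁻¹ * a z) := by ring
                _ ≤ _ := by
                    refine mul_le_mul' ?_ le_rfl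
                    rw [pow_mul]
                    exact pow_le_pow_left' h3 _
          _ ≤ _ := by
              refine lintegral_mono_set ?_
              exact closedBall_subset_closedBall hk.le
      calc (2 : ℝ≥0∞) ^ (M * k) * ∫⁻ z in closedBall 0 ((1 / 2) ^ k), a z
          ≤ (2 : ℝ≥0∞) ^ (M * k) * ((2⁻¹ : ℝ≥0∞) ^ (k * (M + 1)) * I) := mul_le_mul' le_rfl h2
        _ = ((2 : ℝ≥0∞) ^ (M * k) * (2⁻¹ : ℝ≥0∞) ^ (M * k)) * (2⁻¹ : ℝ≥0∞) ^ k * I := by
            have : k * (M + 1) = M * k + k := by ring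
            rw [this, pow_add]
            ring
        _ = _ := by
            rw [← mul_pow, ENNReal.mul_inv_cancel (by norm_num) (by norm_num), one_pow, one_mul]
    have ht : Tendsto (fun k : ℕ => (2⁻¹ : ℝ≥0∞) ^ k * I) atTop (𝓝 (0 * I)) :=
      ENNReal.Tendsto.mul_const
        (ENNReal.tendsto_pow_atTop_nhds_zero_of_lt_one (by norm_num)) (Or.inr hI)
    rw [zero_mul] at ht
    exact tendsto_of_tendsto_of_tendsto_of_le_of_le' tendsto_const_nhds ht
      (Filter.Eventually.of_forall fun _ => zero_le) hle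
  -- finiteness of the full integral
  have hfull : ∫⁻ z in closedBall 0 ρ, a z ≠ ∞ := by
    have h0 := hvan 0
    simp only [zero_mul, pow_zero, one_mul] at h0
    obtain ⟨k, hk⟩ := (h0.eventually (gt_mem_nhds (zero_lt_one' ℝ≥0∞))).exists
    have hsub : closedBall (0 : ℂ) ρ ⊆ closedBall 0 ((1 / 2) ^ k) ∪
        (closedBall 0 ρ \ ball 0 ((1 / 2) ^ k)) := by
      intro z hz
      by_cases h : z ∈ ball (0 : ℂ) ((1 / 2) ^ k)
      · exact Or.inl (ball_subset_closedBall h)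
      · exact Or.inr ⟨hz, h⟩
    refine ne_top_of_le_ne_top ?_ ((lintegral_mono_set hsub).trans (lintegral_union_le _ _ _))
    exact ENNReal.add_ne_top.2 ⟨(hk.trans ENNReal.one_lt_top).ne, hA k⟩
  have hEall : ∀ δ : ℝ, 0 < δ → ∫⁻ z in closedBall 0 ρ \ ball 0 δ, e z ≠ ∞ := by
    intro δ hδ
    obtain ⟨j, hj⟩ := exists_pow_lt_of_lt_one hδ (by norm_num : (1 / 2 : ℝ) < 1)
    refine ne_top_of_le_ne_top (hE j) (lintegral_mono_set ?_)
    exact sdiff_subset_sdiff_right (ball_subset_ball hj.le)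
  -- absolute continuity
  obtain ⟨δ, hδ, hδ2⟩ := exists_pos_setLIntegral_lt_of_measure_lt
    (μ := volume.restrict (closedBall (0 : ℂ) ρ))
    (f := fun l => h l ^ q * ‖l‖ₑ ^ (q - 2)) hpot hε.ne'
  -- choose `K`
  obtain ⟨K, hK2, hK⟩ : ∃ K : ℕ, 2 ≤ K ∧ ∀ i : ℕ, i + 2 ≤ K →
      volume (closedBall (0 : ℂ) ((i + 2) * ρ / K) \ ball 0 (i * ρ / K)) < δ := by
    have hδ' : 0 < min δ 1 := lt_min hδ one_pos
    have hδt : min δ 1 ≠ ∞ := ne_top_of_le_ne_top ENNReal.one_ne_top (min_le_right _ _)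
    set d : ℝ := (min δ 1).toReal with hd
    have hd0 : 0 < d := ENNReal.toReal_pos hδ'.ne' hδt
    obtain ⟨K, hK⟩ := exists_nat_gt (max 2 (Real.pi * (4 * ρ ^ 2) / d))
    have hK2 : 2 < (K : ℝ) := lt_of_le_of_lt (le_max_left _ _) hK
    have hK3 : Real.pi * (4 * ρ ^ 2) / d < K := lt_of_le_of_lt (le_max_right _ _) hK
    have hK0 : 0 < (K : ℝ) := by linarith
    refine ⟨K, by exact_mod_cast hK2.le, fun i hi => ?_⟩
    have hi' : (i : ℝ) + 2 ≤ K := by exact_mod_cast hi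
    have hsub : ball (0 : ℂ) (i * ρ / K) ⊆ closedBall 0 ((i + 2) * ρ / K) := by
      refine ball_subset_closedBall.trans (closedBall_subset_closedBall ?_)
      have h1 : (i : ℝ) * ρ ≤ (i + 2) * ρ := by nlinarith
      exact div_le_div_of_nonneg_right h1 hK0.le
    have hi0 : (0 : ℝ) ≤ i := Nat.cast_nonneg i
    rw [measure_sdiff hsub measurableSet_ball.nullMeasurableSet measure_ball_lt_top.ne,
      Complex.volume_closedBall, Complex.volume_ball]
    have e3 : (NNReal.pi : ℝ≥0∞) = ENNReal.ofReal Real.pi := by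
      rw [ENNReal.ofReal]
      congr 1
      ext
      rw [Real.coe_toNNReal _ Real.pi_pos.le]
      rfl
    rw [e3, ← ENNReal.ofReal_pow (by positivity), ← ENNReal.ofReal_pow (by positivity),
      ← ENNReal.ofReal_mul (by positivity), ← ENNReal.ofReal_mul (by positivity),
      ← ENNReal.ofReal_sub _ (by positivity)]
    refine lt_of_lt_of_le ?_ (min_le_left δ 1)
    rw [← ENNReal.ofReal_toReal hδt]
    refine (ENNReal.ofReal_lt_ofReal_iff hd0).2 ?_
    have h2 : ((i + 2) * ρ / K) ^ 2 * Real.pi - ((i : ℝ) * ρ / K) ^ 2 * Real.pi =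
        Real.pi * ρ ^ 2 * (4 * (i + 1)) / K ^ 2 := by
      field_simp
      ring
    rw [h2, div_lt_iff₀ (by positivity)]
    rw [div_lt_iff₀ hd0] at hK3
    have h3 : Real.pi * ρ ^ 2 * (4 * (i + 1)) ≤ Real.pi * (4 * ρ ^ 2) * K := by
      have : (i : ℝ) + 1 ≤ K := by linarith
      have h4 : 0 ≤ Real.pi * ρ ^ 2 := by positivity
      nlinarith
    calc Real.pi * ρ ^ 2 * (4 * (i + 1)) ≤ Real.pi * (4 * ρ ^ 2) * K := h3
      _ < K * d * K := by
          refine mul_lt_mul_of_pos_right hK3 hK0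
      _ = _ := by rw [hd]; ring
  have hK0 : 0 < (K : ℝ) := by
    have : 0 < K := by omega
    exact_mod_cast this
  -- induction
  have hind : ∀ i : ℕ, i + 1 ≤ K → ∀ᵐ z : ℂ, ‖z‖ < i * ρ / K → a z = 0 := by
    intro i
    induction i with
    | zero =>
      intro _
      refine Filter.Eventually.of_forall fun z hz => ?_
      exfalso
      have := norm_nonneg z
      simp only [Nat.cast_zero, zero_mul, zero_div] at hz
      linarith
    | succ i ih =>
      intro hi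
      have h1 := ih (by omega)
      have hi0 : (0 : ℝ) ≤ i := Nat.cast_nonneg i
      have hi2 : ((i : ℝ) + 2) ≤ K := by exact_mod_cast hi
      have hr2 : ((i : ℝ) + 2) * ρ / K ≤ ρ := by
        rw [div_le_iff₀ hK0]
        nlinarith
      have h2 := h1D a e h ha he hh heh (i * ρ / K) ((i + 1) * ρ / K) ((i + 2) * ρ / K)
        (by positivity) (by positivity) (by
          have h1 : ((i : ℝ) + 1) * ρ < (i + 2) * ρ := by nlinarith
          exact div_lt_div_of_pos_right h1 hK0) h1 ?_ hvan ?_ ?_ (fun N k => hin N k K i (by omega))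
      · push_cast
        exact h2
      · have h3 := hδ2 (closedBall (0 : ℂ) ((i + 2) * ρ / K) \ ball 0 (i * ρ / K)) (by
          refine lt_of_le_of_lt ?_ (hK i (by omega))
          exact Measure.restrict_apply_le _ _)
        refine le_of_eq_of_le ?_ h3.le
        rw [Measure.restrict_restrict (measurableSet_closedBall.diff measurableSet_ball)]
        congr 2
        symm
        rw [inter_eq_left]
        exact sdiff_subset.trans (closedBall_subset_closedBall hr2)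
      · exact ne_top_of_le_ne_top hfull (lintegral_mono_set (closedBall_subset_closedBall hr2))
      · intro δ' hδ'
        exact ne_top_of_le_ne_top (hEall δ' hδ') (lintegral_mono_set
          (sdiff_subset_sdiff_left (closedBall_subset_closedBall hr2)))
  have hfin := hind (K - 1) (by omega)
  filter_upwards [hfin] with z hz hzρ
  refine hz (lt_of_lt_of_le hzρ ?_)
  rw [Nat.cast_sub (by omega), le_div_iff₀ hK0]
  have : (2 : ℝ) ≤ K := by exact_mod_cast hK2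
  push_cast
  nlinarith

theorem local_zero (hn : 2 ≤ n) (c : Cn n) (R : ℝ) (hR : 0 < R) (g : Cn n → Cn m)
    (G : Cn n → Cn n →L[ℝ] Cn m) (hgm : StronglyMeasurable g) (hGm : StronglyMeasurable G)
    (hg : Integrable g) (hG : Integrable G)
    (hw : Pool.Agent.Helper930.WD.WeakDerivOn (ball c R) g G)
    (W : Cn n → ℝ≥0∞) (hW : Measurable W) (hWi : ∫⁻ y, W y ^ (2 * n : ℝ) ≠ ∞)
    (hineq : ∀ x z, ‖al (G x) z‖ₑ ≤ ‖z‖ₑ * W x * ‖g x‖ₑ)
    (hvan : ∀ K : ℕ, ∃ r₀ : ℝ, 0 < r₀ ∧ ∀ r, 0 < r → r ≤ r₀ →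
      ∫⁻ y in closedBall c r, ‖g y‖ₑ ≤ ENNReal.ofReal (r ^ K)) :
    ∀ᵐ y, y ∈ ball c (R / 8) → g y = 0 := by
  have hn1 : (2 : ℝ) ≤ n := by exact_mod_cast hn
  set q : ℝ := 2 * n with hq
  have hq2 : 2 < q := by rw [hq]; linarith
  set ρ : ℝ := R / 4 with hρ
  have hρ0 : 0 < ρ := by positivity
  have hgw : Measurable fun y => ‖g y‖ₑ := hgm.enorm
  have hGw : Measurable fun y => ‖G y‖ₑ := hGm.enorm
  have hmap : Measurable fun p : Cn n × ℂ => c + p.2 • p.1 := by fun_prop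
  -- measurability of the integrals over lines
  have hmeas : ∀ (F : Cn n × ℂ → ℝ≥0∞), Measurable F → ∀ S : Set ℂ,
      ∫⁻ z in Ann n, ∫⁻ l in S, F (z, l) ≠ ∞ →
      ∀ᵐ z ∂(volume.restrict (Ann n)), ∫⁻ l in S, F (z, l) ≠ ∞ := by
    intro F hF S hfin
    have h1 : Measurable fun z => ∫⁻ l in S, F (z, l) := hF.lintegral_prod_right'
    filter_upwards [ae_lt_top h1 hfin] with z hz
    exact hz.ne
  have hA := ae_all_iff.2 fun j : ℕ => hmeas (fun p => ‖g (c + p.2 • p.1)‖ₑ)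
    (hgw.comp hmap) _ (fin_annulus c _ hgw hg.2.ne ρ ((1 / 2) ^ j) (by positivity))
  have hE := ae_all_iff.2 fun j : ℕ => hmeas (fun p => ‖G (c + p.2 • p.1)‖ₑ)
    (hGw.comp hmap) _ (fin_annulus c _ hGw hG.2.ne ρ ((1 / 2) ^ j) (by positivity))
  have hP := hmeas (fun p => (‖p.1‖ₑ * W (c + p.2 • p.1)) ^ q * ‖p.2‖ₑ ^ (q - 2))
    (by
      have := hW.comp hmap
      exact ((measurable_fst.enorm.mul this).pow_const _).mul (measurable_snd.enorm.pow_const _)) _
    (fin_pot c W hW hWi ρ (by omega))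
  choose r₀ hr₀ hr₀' using hvan
  have hC := ae_all_iff.2 fun M : ℕ => hmeas (fun p => (‖p.2‖ₑ ^ M)⁻¹ * ‖g (c + p.2 • p.1)‖ₑ)
    ((measurable_snd.enorm.pow_const M).inv.mul (hgw.comp hmap)) _
    (fin_center c _ hgw M (r₀ (M + 2 * n)) (hr₀' (M + 2 * n)))
  have hin := ae_all_iff.2 fun N : ℕ => ae_all_iff.2 fun k : ℕ => ae_all_iff.2 fun K : ℕ =>
    ae_all_iff.2 fun i : ℕ => (show ∀ᵐ z ∂(volume.restrict (Ann n)), i + 2 ≤ K → ∀ᵐ ζ : ℂ,
      ‖psi N ((1 / 2) ^ k) ((i + 1) * ρ / K) ((i + 2) * ρ / K) ζ‖ₑ * ‖g (c + ζ • z)‖ₑ ≤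
      ∫⁻ l, ‖ζ - l‖ₑ⁻¹ *
        (‖psi N ((1 / 2) ^ k) ((i + 1) * ρ / K) ((i + 2) * ρ / K) l‖ₑ * ‖al (G (c + l • z)) z‖ₑ +
        ‖db (fderiv ℝ (psi N ((1 / 2) ^ k) ((i + 1) * ρ / K) ((i + 2) * ρ / K)) l)‖ₑ *
          ‖g (c + l • z)‖ₑ) by
      by_cases hiK : i + 2 ≤ K
      · have hK0 : 0 < (K : ℝ) := by
          have : 0 < K := by omega
          exact_mod_cast this
        have hi0 : (0 : ℝ) ≤ i := Nat.cast_nonneg i
        have hi2 : ((i : ℝ) + 2) ≤ K := by exact_mod_cast hiK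
        have hr2 : ((i : ℝ) + 2) * ρ / K ≤ ρ := by
          rw [div_le_iff₀ hK0]
          nlinarith
        have hr12 : ((i : ℝ) + 1) * ρ / K < (i + 2) * ρ / K := by
          have h1 : ((i : ℝ) + 1) * ρ < (i + 2) * ρ := by nlinarith
          exact div_lt_div_of_pos_right h1 hK0
        have hδ : (0 : ℝ) < (1 / 2) ^ k := by positivity
        have h1 := slice_ineq c R g G hgm hGm hg hG hw
          (psi N ((1 / 2) ^ k) ((i + 1) * ρ / K) ((i + 2) * ρ / K)) (psi_contDiff hδ)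
          ((1 / 2) ^ k / 2) ρ (by positivity) (by rw [hρ]; linarith)
          ((psi_tsupport hδ (by positivity) hr12).trans
            (sdiff_subset_sdiff_left (closedBall_subset_closedBall hr2)))
        filter_upwards [h1] with z hz _
        exact hz
      · exact Filter.Eventually.of_forall fun z h => absurd h hiK)
  have hlines : ∀ᵐ z ∂(volume.restrict (Ann n)), ∀ᵐ l : ℂ, ‖l‖ < ρ / 2 →
      (fun y => ‖g y‖ₑ) (c + l • z) = 0 := by
    have hmemA : ∀ᵐ z ∂(volume.restrict (Ann n)), z ∈ Ann n := ae_restrict_mem measurableSet_Ann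
    filter_upwards [hA, hE, hP, hC, hin, hmemA] with z hAz hEz hPz hCz hinz hzA
    have hlm : Measurable fun l : ℂ => c + l • z := by fun_prop
    have hz2 : ‖z‖ₑ ≤ 2 := by
      rw [← ofReal_norm]
      calc ENNReal.ofReal ‖z‖ ≤ ENNReal.ofReal 2 := ENNReal.ofReal_le_ofReal hzA.2
        _ = 2 := ENNReal.ofReal_ofNat 2
    have hem : Measurable fun l : ℂ => ‖al (G (c + l • z)) z‖ₑ := by
      have h1 : StronglyMeasurable fun l : ℂ => (G (c + l • z), z) :=
        (hGm.comp_measurable hlm).prodMk stronglyMeasurable_const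
      exact (al_continuous.comp_stronglyMeasurable h1).enorm
    have hale : ∀ l : ℂ, ‖al (G (c + l • z)) z‖ₑ ≤ 2 * ‖G (c + l • z)‖ₑ := by
      intro l
      have h1 := al_norm_le (G (c + l • z)) z
      rw [← ofReal_norm]
      refine (ENNReal.ofReal_le_ofReal h1).trans ?_
      rw [ENNReal.ofReal_mul (norm_nonneg _), ofReal_norm, ofReal_norm, mul_comm]
      exact mul_le_mul' hz2 le_rfl
    refine oneD_iter q hq2 (fun l => ‖g (c + l • z)‖ₑ) (fun l => ‖al (G (c + l • z)) z‖ₑ)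
      (fun l => ‖z‖ₑ * W (c + l • z)) (hgw.comp hlm) hem ((hW.comp hlm).const_mul _)
      (fun l => hineq _ _) ρ hρ0 hPz hAz ?_ ?_ hinz
    · intro j
      have h2 : ∫⁻ l in closedBall (0 : ℂ) ρ \ ball 0 ((1 / 2) ^ j), ‖al (G (c + l • z)) z‖ₑ ≤
          2 * ∫⁻ l in closedBall (0 : ℂ) ρ \ ball 0 ((1 / 2) ^ j), ‖G (c + l • z)‖ₑ := by
        rw [← lintegral_const_mul 2 (f := fun l : ℂ => ‖G (c + l • z)‖ₑ) (hGw.comp hlm)]
        exact lintegral_mono fun l => hale l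
      exact ne_top_of_le_ne_top (ENNReal.mul_ne_top (by norm_num) (hEz j)) h2
    · intro M
      exact ⟨_, half_pos (hr₀ (M + 2 * n)), hCz M⟩
  have hz := zero_of_lines c (fun y => ‖g y‖ₑ) hgw (ρ / 2) hlines
  have hcne : ∀ᵐ y : Cn n, y ≠ c := by
    have hne : Nonempty (Fin n) := ⟨⟨0, by omega⟩⟩
    have hnt : Nontrivial (Cn n) := inferInstance
    exact Measure.ae_ne (volume : Measure (Cn n)) c
  filter_upwards [hz, hcne] with y hy hyc hyb
  have h1 : y ∈ ball c (ρ / 2) := by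
    have : ρ / 2 = R / 8 := by rw [hρ]; ring
    rw [this]
    exact hyb
  have h2 := hy h1 hyc
  exact enorm_eq_zero.1 h2

end Pool.Agent.R234.UC
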